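import Mathlib
import Pool.Agent.H934.Defs

set_option autoImplicit false
set_option linter.unusedSectionVars false
set_option linter.unusedVariables false

open CategoryTheory CategoryTheory.Limits CategoryTheory.Pretriangulated

namespace Pool.Agent.H934

universe v u



variable {T : Type u} [Category.{v} T] [Preadditive T] [HasZeroObject T] [HasShift T ℤ]
  [∀ n : ℤ, (shiftFunctor T n).Additive] [Pretriangulated T]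

namespace Slicing

variable (σ : Slicing T)

/-- All phases are at least `t`. -/
def Ge (t : ℝ) (E : T) : Prop := ∀ ψ < t, ∀ X, σ.P ψ X → ∀ f : E ⟶ X, f = 0
/-- All phases are greater than `t`. -/
def Gt (t : ℝ) (E : T) : Prop := ∀ ψ ≤ t, ∀ X, σ.P ψ X → ∀ f : E ⟶ X, f = 0
/-- All phases are at most `t`. -/
def Le (t : ℝ) (E : T) : Prop := ∀ ψ > t, ∀ X, σ.P ψ X → ∀ f : X ⟶ E, f = 0
/-- All phases are less than `t`. -/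
def Lt (t : ℝ) (E : T) : Prop := ∀ ψ ≥ t, ∀ X, σ.P ψ X → ∀ f : X ⟶ E, f = 0

variable {σ}

lemma Ge.mono {s t : ℝ} (h : s ≤ t) {E : T} (hE : σ.Ge t E) : σ.Ge s E :=
  fun ψ hψ X hX f => hE ψ (lt_of_lt_of_le hψ h) X hX f
lemma Gt.mono {s t : ℝ} (h : s ≤ t) {E : T} (hE : σ.Gt t E) : σ.Gt s E :=
  fun ψ hψ X hX f => hE ψ (le_trans hψ h) X hX f
lemma Gt.ge {t : ℝ} {E : T} (hE : σ.Gt t E) : σ.Ge t E :=
  fun ψ hψ X hX f => hE ψ hψ.le X hX f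
lemma Ge.gt {s t : ℝ} (h : s < t) {E : T} (hE : σ.Ge t E) : σ.Gt s E :=
  fun ψ hψ X hX f => hE ψ (lt_of_le_of_lt hψ h) X hX f
lemma Le.mono {s t : ℝ} (h : s ≤ t) {E : T} (hE : σ.Le s E) : σ.Le t E :=
  fun ψ hψ X hX f => hE ψ (lt_of_le_of_lt h hψ) X hX f
lemma Lt.mono {s t : ℝ} (h : s ≤ t) {E : T} (hE : σ.Lt s E) : σ.Lt t E :=
  fun ψ hψ X hX f => hE ψ (le_trans h hψ) X hX f
lemma Lt.le {t : ℝ} {E : T} (hE : σ.Lt t E) : σ.Le t E :=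
  fun ψ hψ X hX f => hE ψ (le_of_lt hψ) X hX f
lemma Le.lt {s t : ℝ} (h : s < t) {E : T} (hE : σ.Le s E) : σ.Lt t E :=
  fun ψ hψ X hX f => hE ψ (lt_of_lt_of_le h hψ) X hX f

lemma ge_of_P {t : ℝ} {E : T} (h : σ.P t E) : σ.Ge t E :=
  fun ψ hψ X hX f => σ.hom t ψ E X hψ h hX f
lemma le_of_P {t : ℝ} {E : T} (h : σ.P t E) : σ.Le t E :=
  fun ψ hψ X hX f => σ.hom ψ t X E hψ hX h f

lemma ge_of_isZero {t : ℝ} {E : T} (h : IsZero E) : σ.Ge t E := fun _ _ _ _ f => h.eq_of_src f 0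
lemma gt_of_isZero {t : ℝ} {E : T} (h : IsZero E) : σ.Gt t E := fun _ _ _ _ f => h.eq_of_src f 0
lemma le_of_isZero {t : ℝ} {E : T} (h : IsZero E) : σ.Le t E := fun _ _ _ _ f => h.eq_of_tgt f 0
lemma lt_of_isZero {t : ℝ} {E : T} (h : IsZero E) : σ.Lt t E := fun _ _ _ _ f => h.eq_of_tgt f 0

lemma Ge.iso {t : ℝ} {E F : T} (e : E ≅ F) (h : σ.Ge t E) : σ.Ge t F := by
  intro ψ hψ X hX f
  have := h ψ hψ X hX (e.hom ≫ f)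
  rw [← cancel_epi e.hom, this, comp_zero]
lemma Gt.iso {t : ℝ} {E F : T} (e : E ≅ F) (h : σ.Gt t E) : σ.Gt t F := by
  intro ψ hψ X hX f
  have := h ψ hψ X hX (e.hom ≫ f)
  rw [← cancel_epi e.hom, this, comp_zero]
lemma Le.iso {t : ℝ} {E F : T} (e : E ≅ F) (h : σ.Le t E) : σ.Le t F := by
  intro ψ hψ X hX f
  have := h ψ hψ X hX (f ≫ e.inv)
  rw [← cancel_mono e.inv, this, zero_comp]
lemma Lt.iso {t : ℝ} {E F : T} (e : E ≅ F) (h : σ.Lt t E) : σ.Lt t F := by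
  intro ψ hψ X hX f
  have := h ψ hψ X hX (f ≫ e.inv)
  rw [← cancel_mono e.inv, this, zero_comp]

/-- Extensions. -/
lemma Ge.ext {t : ℝ} {Δ : Triangle T} (hΔ : Δ ∈ distTriang T) (h1 : σ.Ge t Δ.obj₁)
    (h3 : σ.Ge t Δ.obj₃) : σ.Ge t Δ.obj₂ := by
  intro ψ hψ X hX f
  obtain ⟨g, hg⟩ := Triangle.yoneda_exact₂ Δ hΔ f (h1 ψ hψ X hX _)
  rw [hg, h3 ψ hψ X hX g, comp_zero]
lemma Gt.ext {t : ℝ} {Δ : Triangle T} (hΔ : Δ ∈ distTriang T) (h1 : σ.Gt t Δ.obj₁)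
    (h3 : σ.Gt t Δ.obj₃) : σ.Gt t Δ.obj₂ := by
  intro ψ hψ X hX f
  obtain ⟨g, hg⟩ := Triangle.yoneda_exact₂ Δ hΔ f (h1 ψ hψ X hX _)
  rw [hg, h3 ψ hψ X hX g, comp_zero]
lemma Le.ext {t : ℝ} {Δ : Triangle T} (hΔ : Δ ∈ distTriang T) (h1 : σ.Le t Δ.obj₁)
    (h3 : σ.Le t Δ.obj₃) : σ.Le t Δ.obj₂ := by
  intro ψ hψ X hX f
  obtain ⟨g, hg⟩ := Triangle.coyoneda_exact₂ Δ hΔ f (h3 ψ hψ X hX _)
  rw [hg, h1 ψ hψ X hX g, zero_comp]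
lemma Lt.ext {t : ℝ} {Δ : Triangle T} (hΔ : Δ ∈ distTriang T) (h1 : σ.Lt t Δ.obj₁)
    (h3 : σ.Lt t Δ.obj₃) : σ.Lt t Δ.obj₂ := by
  intro ψ hψ X hX f
  obtain ⟨g, hg⟩ := Triangle.coyoneda_exact₂ Δ hΔ f (h3 ψ hψ X hX _)
  rw [hg, h1 ψ hψ X hX g, zero_comp]

/-- Shifts of semistable objects. -/
lemma P_shift {φ : ℝ} {E : T} (h : σ.P φ E) (n : ℤ) : σ.P (φ + n) (E⟦n⟧) := by
  induction n using Int.induction_on with
  | zero => simpa using σ.iso _ _ _ ⟨((shiftFunctorZero T ℤ).app E).symm⟩ h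
  | succ i hi =>
    have h1 := (σ.shift _ _).2 hi
    have h2 : φ + ((i + 1 : ℤ) : ℝ) = φ + (i : ℤ) + 1 := by push_cast; ring
    rw [h2]
    exact σ.iso _ _ _ ⟨((shiftFunctorAdd' T (i : ℤ) 1 (i + 1) rfl).app E).symm⟩ h1
  | pred i hi =>
    have h2 : φ + ((-(i : ℤ) - 1 : ℤ) : ℝ) = φ + ((-(i : ℤ) : ℤ) : ℝ) - 1 := by push_cast; ring
    rw [h2, ← σ.shift, sub_add_cancel]
    exact σ.iso _ _ _ ⟨(shiftFunctorAdd' T (-(i : ℤ) - 1) 1 (-(i : ℤ)) (by ring)).app E⟩ hi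

lemma P_shift_iff {φ : ℝ} {E : T} (n : ℤ) : σ.P (φ + n) (E⟦n⟧) ↔ σ.P φ E := by
  refine ⟨fun h => ?_, fun h => P_shift h n⟩
  have h1 := P_shift h (-n)
  have h2 : φ + (n : ℝ) + ((-n : ℤ) : ℝ) = φ := by push_cast; ring
  rw [h2] at h1
  exact σ.iso _ _ _ ⟨(shiftFunctorCompIsoId T n (-n) (by ring)).app E⟩ h1

lemma shift_hom_zero {X Y : T} (n : ℤ) (h : ∀ f : X ⟶ Y⟦-n⟧, f = 0) (f : X⟦n⟧ ⟶ Y) : f = 0 := by
  have h1 := h ((shiftFunctorCompIsoId T n (-n) (by ring)).inv.app X ≫ f⟦-n⟧')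
  have h2 : f⟦-n⟧' = 0 := by
    rw [← cancel_epi ((shiftFunctorCompIsoId T n (-n) (by ring)).inv.app X), h1, comp_zero]
  exact (shiftFunctor T (-n)).map_injective (by rw [h2, Functor.map_zero])

lemma shift_hom_zero' {X Y : T} (n : ℤ) (h : ∀ f : X⟦-n⟧ ⟶ Y, f = 0) (f : X ⟶ Y⟦n⟧) : f = 0 := by
  have h1 := h (f⟦-n⟧' ≫ (shiftFunctorCompIsoId T n (-n) (by ring)).hom.app Y)
  have h2 : f⟦-n⟧' = 0 := by
    rw [← cancel_mono ((shiftFunctorCompIsoId T n (-n) (by ring)).hom.app Y), h1, zero_comp]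
  exact (shiftFunctor T (-n)).map_injective (by rw [h2, Functor.map_zero])

lemma P_shift_neg {ψ : ℝ} {X : T} (hX : σ.P ψ X) (n : ℤ) : σ.P (ψ - n) (X⟦-n⟧) := by
  have := P_shift hX (-n)
  rwa [show ψ + ((-n : ℤ) : ℝ) = ψ - n by push_cast; ring] at this

lemma Ge.shift {t : ℝ} {E : T} (h : σ.Ge t E) (n : ℤ) : σ.Ge (t + n) (E⟦n⟧) := by
  intro ψ hψ X hX f
  exact shift_hom_zero n (fun g => h (ψ - n) (by linarith) _ (P_shift_neg hX n) g) f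
lemma Gt.shift {t : ℝ} {E : T} (h : σ.Gt t E) (n : ℤ) : σ.Gt (t + n) (E⟦n⟧) := by
  intro ψ hψ X hX f
  exact shift_hom_zero n (fun g => h (ψ - n) (by linarith) _ (P_shift_neg hX n) g) f
lemma Le.shift {t : ℝ} {E : T} (h : σ.Le t E) (n : ℤ) : σ.Le (t + n) (E⟦n⟧) := by
  intro ψ hψ X hX f
  exact shift_hom_zero' n (fun g => h (ψ - n) (by linarith) _ (P_shift_neg hX n) g) f
lemma Lt.shift {t : ℝ} {E : T} (h : σ.Lt t E) (n : ℤ) : σ.Lt (t + n) (E⟦n⟧) := by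
  intro ψ hψ X hX f
  exact shift_hom_zero' n (fun g => h (ψ - n) (by linarith) _ (P_shift_neg hX n) g) f

lemma Ge.shift1 {t : ℝ} {E : T} (h : σ.Ge t E) : σ.Ge (t + 1) (E⟦(1 : ℤ)⟧) := by
  simpa using h.shift 1
lemma Gt.shift1 {t : ℝ} {E : T} (h : σ.Gt t E) : σ.Gt (t + 1) (E⟦(1 : ℤ)⟧) := by
  simpa using h.shift 1
lemma Le.shift1 {t : ℝ} {E : T} (h : σ.Le t E) : σ.Le (t + 1) (E⟦(1 : ℤ)⟧) := by
  simpa using h.shift 1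
lemma Lt.shift1 {t : ℝ} {E : T} (h : σ.Lt t E) : σ.Lt (t + 1) (E⟦(1 : ℤ)⟧) := by
  simpa using h.shift 1
lemma Ge.shiftm1 {t : ℝ} {E : T} (h : σ.Ge t E) : σ.Ge (t - 1) (E⟦(-1 : ℤ)⟧) := by
  simpa [sub_eq_add_neg] using h.shift (-1)
lemma Gt.shiftm1 {t : ℝ} {E : T} (h : σ.Gt t E) : σ.Gt (t - 1) (E⟦(-1 : ℤ)⟧) := by
  simpa [sub_eq_add_neg] using h.shift (-1)
lemma Le.shiftm1 {t : ℝ} {E : T} (h : σ.Le t E) : σ.Le (t - 1) (E⟦(-1 : ℤ)⟧) := by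
  simpa [sub_eq_add_neg] using h.shift (-1)
lemma Lt.shiftm1 {t : ℝ} {E : T} (h : σ.Lt t E) : σ.Lt (t - 1) (E⟦(-1 : ℤ)⟧) := by
  simpa [sub_eq_add_neg] using h.shift (-1)

end Slicing

end Pool.Agent.H934
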