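import Mathlib
import Pool.Agent.H934.Slicing

set_option autoImplicit false
set_option linter.unusedSectionVars false
set_option linter.unusedVariables false

open CategoryTheory CategoryTheory.Limits CategoryTheory.Pretriangulated ZeroObject

namespace Pool.Agent.H934

universe v u

variable {T : Type u} [Category.{v} T] [Preadditive T] [HasZeroObject T] [HasShift T ℤ]
  [∀ n : ℤ, (shiftFunctor T n).Additive] [Pretriangulated T] [IsTriangulated T]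

/-- Changing the middle object of a triangle. -/
lemma tri_iso₂ {A B B' C : T} {a : A ⟶ B} {b : B ⟶ C} {c : C ⟶ A⟦(1 : ℤ)⟧}
    (ht : Triangle.mk a b c ∈ distTriang T) (e : B ≅ B') :
    Triangle.mk (a ≫ e.hom) (e.inv ≫ b) c ∈ distTriang T := by
  refine isomorphic_distinguished _ ht _
    (Triangle.isoMk _ _ (Iso.refl _) e.symm (Iso.refl _) ?_ ?_ ?_)
  · change (a ≫ e.hom) ≫ e.inv = 𝟙 _ ≫ a
    simp
  · change (e.inv ≫ b) ≫ 𝟙 _ = e.inv ≫ b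
    simp
  · change c ≫ (𝟙 A)⟦(1 : ℤ)⟧' = 𝟙 _ ≫ c
    simp

/-- The contractible triangle of an isomorphism. -/
lemma tri_of_iso {A B : T} (e : A ≅ B) :
    Triangle.mk e.hom (0 : B ⟶ 0) (0 : 0 ⟶ A⟦(1 : ℤ)⟧) ∈ distTriang T := by
  refine isomorphic_distinguished _ (contractible_distinguished A) _
    (Triangle.isoMk _ _ (Iso.refl _) e.symm (Iso.refl _) ?_ ?_ ?_)
  · change e.hom ≫ e.inv = 𝟙 A ≫ 𝟙 A
    simp
  · change (0 : B ⟶ 0) ≫ 𝟙 _ = e.inv ≫ 0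
    simp
  · change (0 : 0 ⟶ A⟦(1 : ℤ)⟧) ≫ (𝟙 A)⟦(1 : ℤ)⟧' = 𝟙 _ ≫ 0
    simp

namespace Slicing

variable {σ : Slicing T}

/-- Octahedral axiom: if `A ⟶ X ⟶ B'` and `X ⟶ E ⟶ C` are triangles, there are triangles
`A ⟶ E ⟶ B` and `B' ⟶ B ⟶ C`. -/
lemma octa {A X B' E C : T} {a : A ⟶ X} {b : X ⟶ B'} {c : B' ⟶ A⟦(1 : ℤ)⟧}
    (h1 : Triangle.mk a b c ∈ distTriang T) {x : X ⟶ E} {y : E ⟶ C} {z : C ⟶ X⟦(1 : ℤ)⟧}
    (h2 : Triangle.mk x y z ∈ distTriang T) :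
    ∃ (B : T) (p : E ⟶ B) (q : B ⟶ A⟦(1 : ℤ)⟧) (r : B' ⟶ B) (s : B ⟶ C) (w : C ⟶ B'⟦(1 : ℤ)⟧),
      Triangle.mk (a ≫ x) p q ∈ distTriang T ∧ Triangle.mk r s w ∈ distTriang T ∧
      b ≫ r = x ≫ p ∧ p ≫ s = y := by
  obtain ⟨B, p, q, h3⟩ := distinguished_cocone_triangle (a ≫ x)
  have o := Triangulated.someOctahedron rfl h1 h2 h3
  exact ⟨B, p, q, o.m₁, o.m₃, _, h3, o.mem, o.comm₁, o.comm₃⟩

/-- All Harder-Narasimhan data of a filtration. -/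
lemma hn_data {P : ℝ → T → Prop} (σ : Slicing T) {n : ℕ} {X A : ℕ → T} {φ : ℕ → ℝ}
    (h0 : IsZero (X 0))
    (h : ∀ i < n, σ.P (φ i) (A i) ∧ ¬ IsZero (A i) ∧ IsTri (X i) (X (i + 1)) (A i) ∧
      (i + 1 < n → φ (i + 1) < φ i)) :
    ∀ i, i < n → σ.Ge (φ i) (X (i + 1)) ∧ (0 < i → σ.Gt (φ i) (X i)) ∧
      (∃ (C B : T) (a : C ⟶ X (i + 1)) (b : X (i + 1) ⟶ B) (c : B ⟶ C⟦(1 : ℤ)⟧),
        Triangle.mk a b c ∈ distTriang T ∧ σ.P (φ 0) C ∧ ¬ IsZero C ∧ σ.Lt (φ 0) B) ∧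
      (i = 0 ∨ φ i < φ 0) := by
  intro i
  induction i with
  | zero =>
    intro hi
    obtain ⟨hP, hz, ⟨a, b, c, ht⟩, hφ⟩ := h 0 hi
    have hiso : IsIso b := (Triangle.isZero₁_iff_isIso₂ _ ht).1 h0
    refine ⟨?_, fun h => absurd h (lt_irrefl _), ?_, Or.inl rfl⟩
    · exact (ge_of_P hP).iso (asIso b).symm
    · exact ⟨A 0, 0, (asIso b).symm.hom, 0, 0, tri_of_iso (asIso b).symm, hP, hz,
        lt_of_isZero (isZero_zero T)⟩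
  | succ i ih =>
    intro hi
    obtain ⟨h1, h2, ⟨C, B, a, b, c, ht, hPC, hC, hB⟩, h4⟩ := ih (by omega)
    obtain ⟨hP, hz, ⟨a', b', c', ht'⟩, hφ⟩ := h (i + 1) hi
    have hlt : φ (i + 1) < φ i := (h i (by omega)).2.2.2 hi
    have hgt : σ.Gt (φ (i + 1)) (X (i + 1)) := h1.gt hlt
    have hlt0 : φ (i + 1) < φ 0 := by
      rcases h4 with h4 | h4
      · subst h4; exact hlt
      · exact hlt.trans h4
    refine ⟨?_, fun _ => hgt, ?_, Or.inr hlt0⟩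
    · exact Ge.ext ht' hgt.ge (ge_of_P hP)
    · obtain ⟨B2, p, q, r, s, w, k1, k2, k3, k4⟩ := octa ht ht'
      refine ⟨C, B2, _, p, q, k1, hPC, hC, ?_⟩
      exact Lt.ext k2 hB ((le_of_P hP).lt hlt0)

/-- The first Harder-Narasimhan factor. -/
theorem exists_max (σ : Slicing T) {E : T} (hE : ¬ IsZero E) :
    ∃ (ρ : ℝ) (C B : T) (a : C ⟶ E) (b : E ⟶ B) (c : B ⟶ C⟦(1 : ℤ)⟧),
      Triangle.mk a b c ∈ distTriang T ∧ σ.P ρ C ∧ ¬ IsZero C ∧ σ.Lt ρ B := by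
  obtain ⟨n, X, A, φ, h0, ⟨e⟩, h⟩ := σ.hn E
  rcases n with _ | n
  · exact absurd (h0.of_iso e.symm) hE
  · obtain ⟨-, -, ⟨C, B, a, b, c, ht, hPC, hC, hB⟩, -⟩ :=
      hn_data (P := σ.P) σ h0 h n (by omega)
    exact ⟨φ 0, C, B, a ≫ e.hom, e.inv ≫ b, c, tri_iso₂ ht e, hPC, hC, hB⟩

/-- The last Harder-Narasimhan factor. -/
theorem exists_min (σ : Slicing T) {E : T} (hE : ¬ IsZero E) :
    ∃ (ρ : ℝ) (A D : T) (a : A ⟶ E) (b : E ⟶ D) (c : D ⟶ A⟦(1 : ℤ)⟧),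
      Triangle.mk a b c ∈ distTriang T ∧ σ.P ρ D ∧ ¬ IsZero D ∧ σ.Gt ρ A := by
  obtain ⟨n, X, A, φ, h0, ⟨e⟩, h⟩ := σ.hn E
  rcases n with _ | n
  · exact absurd (h0.of_iso e.symm) hE
  · obtain ⟨-, h2, -, -⟩ := hn_data (P := σ.P) σ h0 h n (by omega)
    obtain ⟨hP, hz, ⟨a, b, c, ht⟩, -⟩ := h n (by omega)
    refine ⟨φ n, X n, A n, a ≫ e.hom, e.inv ≫ b, c, tri_iso₂ ht e, hP, hz, ?_⟩
    rcases n with _ | n
    · exact gt_of_isZero h0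
    · exact h2 (by omega)

/-- A morphism `C ⟶ E` in a triangle `C ⟶ E ⟶ B` is nonzero if `C` has no morphisms to
`B⟦-1⟧`. -/
lemma mor₁_ne_zero {E C B : T} {a : C ⟶ E} {b : E ⟶ B} {c : B ⟶ C⟦(1 : ℤ)⟧}
    (ht : Triangle.mk a b c ∈ distTriang T) (hz : ¬ IsZero C) (h : ∀ g : C ⟶ B⟦(-1 : ℤ)⟧, g = 0) :
    a ≠ 0 := by
  intro h1
  obtain ⟨g, hg⟩ := Triangle.coyoneda_exact₂ _ (inv_rot_of_distTriang _ ht) (𝟙 C) (by
    change 𝟙 C ≫ a = 0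
    rw [h1, comp_zero])
  apply hz
  rw [IsZero.iff_id_eq_zero, hg]
  have : g = 0 := h g
  rw [this]
  exact zero_comp

/-- A morphism `E ⟶ D` in a triangle `A ⟶ E ⟶ D` is nonzero if `A⟦1⟧` has no morphisms to
`D`. -/
lemma mor₂_ne_zero {E A D : T} {a : A ⟶ E} {b : E ⟶ D} {c : D ⟶ A⟦(1 : ℤ)⟧}
    (ht : Triangle.mk a b c ∈ distTriang T) (hz : ¬ IsZero D) (h : ∀ g : A⟦(1 : ℤ)⟧ ⟶ D, g = 0) :
    b ≠ 0 := by
  intro h1
  obtain ⟨g, hg⟩ := Triangle.yoneda_exact₂ _ (rot_of_distTriang _ ht) (𝟙 D) (by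
    change b ≫ 𝟙 D = 0
    rw [h1, zero_comp])
  apply hz
  rw [IsZero.iff_id_eq_zero, hg]
  have : g = 0 := h g
  rw [this]
  exact comp_zero

/-- The phase of the first factor is a lower bound for all upper bounds. -/
lemma Le.le_max {t ρ : ℝ} {E C B : T} {a : C ⟶ E} {b : E ⟶ B} {c : B ⟶ C⟦(1 : ℤ)⟧}
    (hE : σ.Le t E) (ht : Triangle.mk a b c ∈ distTriang T) (hC : σ.P ρ C) (hz : ¬ IsZero C)
    (hB : σ.Lt ρ B) : ρ ≤ t := by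
  by_contra hlt
  push Not at hlt
  exact mor₁_ne_zero ht hz (fun g => hB.shiftm1 ρ (by linarith) C hC g) (hE ρ hlt C hC a)

lemma Lt.lt_max {t ρ : ℝ} {E C B : T} {a : C ⟶ E} {b : E ⟶ B} {c : B ⟶ C⟦(1 : ℤ)⟧}
    (hE : σ.Lt t E) (ht : Triangle.mk a b c ∈ distTriang T) (hC : σ.P ρ C) (hz : ¬ IsZero C)
    (hB : σ.Lt ρ B) : ρ < t := by
  by_contra hlt
  push Not at hlt
  exact mor₁_ne_zero ht hz (fun g => hB.shiftm1 ρ (by linarith) C hC g) (hE ρ hlt C hC a)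

lemma Ge.min_le {t ρ : ℝ} {E A D : T} {a : A ⟶ E} {b : E ⟶ D} {c : D ⟶ A⟦(1 : ℤ)⟧}
    (hE : σ.Ge t E) (ht : Triangle.mk a b c ∈ distTriang T) (hD : σ.P ρ D) (hz : ¬ IsZero D)
    (hA : σ.Gt ρ A) : t ≤ ρ := by
  by_contra hlt
  push Not at hlt
  exact mor₂_ne_zero ht hz (fun g => hA.shift1 ρ (by linarith) D hD g) (hE ρ hlt D hD b)

lemma Gt.min_lt {t ρ : ℝ} {E A D : T} {a : A ⟶ E} {b : E ⟶ D} {c : D ⟶ A⟦(1 : ℤ)⟧}
    (hE : σ.Gt t E) (ht : Triangle.mk a b c ∈ distTriang T) (hD : σ.P ρ D) (hz : ¬ IsZero D)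
    (hA : σ.Gt ρ A) : t < ρ := by
  by_contra hlt
  push Not at hlt
  exact mor₂_ne_zero ht hz (fun g => hA.shift1 ρ (by linarith) D hD g) (hE ρ hlt D hD b)

/-- Induction over the Harder-Narasimhan filtration. -/
theorem ind (σ : Slicing T) {E : T} {p : T → Prop} (h0 : ∀ Z, IsZero Z → p Z)
    (hiso : ∀ X Y : T, (X ≅ Y) → p X → p Y)
    (hext : ∀ Δ : Triangle T, Δ ∈ distTriang T → p Δ.obj₁ → p Δ.obj₃ → p Δ.obj₂)
    (hp : ∀ ψ X, σ.P ψ X → ¬ IsZero X → (∀ t, σ.Ge t E → t ≤ ψ) → (∀ t, σ.Gt t E → t < ψ) →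
      (∀ t, σ.Le t E → ψ ≤ t) → (∀ t, σ.Lt t E → ψ < t) → p X) : p E := by
  obtain ⟨n, X, A, φ, h0', ⟨e⟩, h⟩ := σ.hn E
  rcases n with _ | n
  · exact hiso _ _ e (h0 _ h0')
  -- the bounds
  have key := hn_data (P := σ.P) σ h0' h
  obtain ⟨-, h2, ⟨C, B, a, b, c, ht, hPC, hC, hB⟩, h4⟩ := key n (by omega)
  obtain ⟨hP, hz, ⟨a', b', c', ht'⟩, -⟩ := h n (by omega)
  have hgt : σ.Gt (φ n) (X n) := by
    rcases n with _ | n
    · exact gt_of_isZero h0'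
    · exact h2 (by omega)
  have anti : ∀ i j, i ≤ j → j < n + 1 → φ j ≤ φ i := by
    intro i j hij hj
    induction j with
    | zero => have : i = 0 := by omega
              rw [this]
    | succ j ih =>
      rcases Nat.lt_or_ge i (j + 1) with h5 | h5
      · exact ((h j (by omega)).2.2.2 hj).le.trans (ih (by omega) (by omega))
      · have : i = j + 1 := by omega
        rw [this]
  have bGe : ∀ t, σ.Ge t E → ∀ i < n + 1, t ≤ φ i := fun t ht0 i hi =>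
    ((ht0.iso e.symm).min_le ht' hP hz hgt).trans (anti i n (by omega) (by omega))
  have bGt : ∀ t, σ.Gt t E → ∀ i < n + 1, t < φ i := fun t ht0 i hi =>
    ((ht0.iso e.symm).min_lt ht' hP hz hgt).trans_le (anti i n (by omega) (by omega))
  have bLe : ∀ t, σ.Le t E → ∀ i < n + 1, φ i ≤ t := fun t ht0 i hi =>
    (anti 0 i (by omega) hi).trans ((ht0.iso e.symm).le_max ht hPC hC hB)
  have bLt : ∀ t, σ.Lt t E → ∀ i < n + 1, φ i < t := fun t ht0 i hi =>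
    (anti 0 i (by omega) hi).trans_lt ((ht0.iso e.symm).lt_max ht hPC hC hB)
  have main : ∀ i, i ≤ n + 1 → p (X i) := by
    intro i
    induction i with
    | zero => intro _; exact h0 _ h0'
    | succ i ih =>
      intro hi
      obtain ⟨hP', hz', ⟨a'', b'', c'', ht''⟩, -⟩ := h i (by omega)
      exact hext _ ht'' (ih (by omega)) (hp (φ i) (A i) hP' hz'
        (fun t ht => bGe t ht i (by omega)) (fun t ht => bGt t ht i (by omega))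
        (fun t ht => bLe t ht i (by omega)) (fun t ht => bLt t ht i (by omega)))
  exact hiso _ _ e (main (n + 1) le_rfl)

lemma hom_zero_gt_le {t : ℝ} {E F : T} (hE : σ.Gt t E) (hF : σ.Le t F) (f : E ⟶ F) : f = 0 := by
  revert f
  refine σ.ind (E := E) (p := fun E => ∀ f : E ⟶ F, f = 0) (fun Z hZ f => hZ.eq_of_src f 0)
    (fun X Y e h f => ?_) (fun Δ hΔ h1 h3 f => ?_) (fun ψ X hX _ _ h _ _ f => ?_)
  · rw [← cancel_epi e.hom, h (e.hom ≫ f), comp_zero]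
  · obtain ⟨g, hg⟩ := Triangle.yoneda_exact₂ Δ hΔ f (h1 _)
    rw [hg, h3 g, comp_zero]
  · exact hF ψ (h t hE) X hX f

lemma hom_zero_ge_lt {t : ℝ} {E F : T} (hE : σ.Ge t E) (hF : σ.Lt t F) (f : E ⟶ F) : f = 0 := by
  revert f
  refine σ.ind (E := E) (p := fun E => ∀ f : E ⟶ F, f = 0) (fun Z hZ f => hZ.eq_of_src f 0)
    (fun X Y e h f => ?_) (fun Δ hΔ h1 h3 f => ?_) (fun ψ X hX _ h _ _ _ f => ?_)
  · rw [← cancel_epi e.hom, h (e.hom ≫ f), comp_zero]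
  · obtain ⟨g, hg⟩ := Triangle.yoneda_exact₂ Δ hΔ f (h1 _)
    rw [hg, h3 g, comp_zero]
  · exact hF ψ (h t hE) X hX f

lemma hom_zero {s t : ℝ} (hst : s < t) {E F : T} (hE : σ.Ge t E) (hF : σ.Le s F) (f : E ⟶ F) :
    f = 0 :=
  hom_zero_ge_lt hE (hF.lt hst) f

/-- Semistable objects are those whose phases are all equal. -/
lemma P_of_ge_le {φ : ℝ} {E : T} (h1 : σ.Ge φ E) (h2 : σ.Le φ E) : σ.P φ E := by
  obtain ⟨n, X, A, ψ, h0, ⟨e⟩, h⟩ := σ.hn E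
  rcases n with _ | n
  · exact σ.zero _ _ (h0.of_iso e.symm)
  have key := hn_data (P := σ.P) σ h0 h
  obtain ⟨-, h3, ⟨C, B, a, b, c, ht, hPC, hC, hB⟩, h4⟩ := key n (by omega)
  obtain ⟨hP, hz, ⟨a', b', c', ht'⟩, -⟩ := h n (by omega)
  have hgt : σ.Gt (ψ n) (X n) := by
    rcases n with _ | n
    · exact gt_of_isZero h0
    · exact h3 (by omega)
  have b1 := (h1.iso e.symm).min_le ht' hP hz hgt
  have b2 := (h2.iso e.symm).le_max ht hPC hC hB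
  have hn : n = 0 := by
    rcases h4 with h4 | h4
    · exact h4
    · linarith
  subst hn
  have hiso : IsIso b' := (Triangle.isZero₁_iff_isIso₂ _ ht').1 h0
  have : ψ 0 = φ := le_antisymm b2 b1
  rw [← this]
  exact σ.iso _ _ _ ⟨(asIso b').symm ≪≫ e⟩ hP

lemma P_iff {φ : ℝ} {E : T} : σ.P φ E ↔ σ.Ge φ E ∧ σ.Le φ E :=
  ⟨fun h => ⟨ge_of_P h, le_of_P h⟩, fun h => P_of_ge_le h.1 h.2⟩

/-- Truncation. -/
theorem exists_trunc (σ : Slicing T) (t : ℝ) (E : T) :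
    ∃ (A B : T) (a : A ⟶ E) (b : E ⟶ B) (c : B ⟶ A⟦(1 : ℤ)⟧),
      Triangle.mk a b c ∈ distTriang T ∧ σ.Gt t A ∧ σ.Le t B := by
  obtain ⟨n, X, A, φ, h0, ⟨e⟩, h⟩ := σ.hn E
  have key := hn_data (P := σ.P) σ h0 h
  have main : ∀ i, i ≤ n → ∃ (A B : T) (a : A ⟶ X i) (b : X i ⟶ B) (c : B ⟶ A⟦(1 : ℤ)⟧),
      Triangle.mk a b c ∈ distTriang T ∧ σ.Gt t A ∧ σ.Le t B := by
    intro i
    induction i with
    | zero =>
      intro _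
      exact ⟨X 0, 0, (Iso.refl (X 0)).hom, 0, 0, tri_of_iso (Iso.refl _), gt_of_isZero h0,
        le_of_isZero (isZero_zero T)⟩
    | succ i ih =>
      intro hi
      obtain ⟨hP, hz, ⟨a', b', c', ht'⟩, -⟩ := h i (by omega)
      rcases lt_or_ge t (φ i) with h1 | h1
      · exact ⟨X (i + 1), 0, (Iso.refl _).hom, 0, 0, tri_of_iso (Iso.refl _),
          (key i (by omega)).1.gt h1, le_of_isZero (isZero_zero T)⟩
      · obtain ⟨A1, B1, a, b, c, ht, hA, hB⟩ := ih (by omega)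
        obtain ⟨B2, p, q, r, s, w, k1, k2, k3, k4⟩ := octa ht ht'
        exact ⟨A1, B2, _, p, q, k1, hA, Le.ext k2 hB ((le_of_P hP).mono h1)⟩
  obtain ⟨A1, B1, a, b, c, ht, hA, hB⟩ := main n le_rfl
  exact ⟨A1, B1, _, _, c, tri_iso₂ ht e, hA, hB⟩

/-- Truncation. -/
theorem exists_trunc' (σ : Slicing T) (t : ℝ) (E : T) :
    ∃ (A B : T) (a : A ⟶ E) (b : E ⟶ B) (c : B ⟶ A⟦(1 : ℤ)⟧),
      Triangle.mk a b c ∈ distTriang T ∧ σ.Ge t A ∧ σ.Lt t B := by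
  obtain ⟨n, X, A, φ, h0, ⟨e⟩, h⟩ := σ.hn E
  have key := hn_data (P := σ.P) σ h0 h
  have main : ∀ i, i ≤ n → ∃ (A B : T) (a : A ⟶ X i) (b : X i ⟶ B) (c : B ⟶ A⟦(1 : ℤ)⟧),
      Triangle.mk a b c ∈ distTriang T ∧ σ.Ge t A ∧ σ.Lt t B := by
    intro i
    induction i with
    | zero =>
      intro _
      exact ⟨X 0, 0, (Iso.refl (X 0)).hom, 0, 0, tri_of_iso (Iso.refl _), ge_of_isZero h0,
        lt_of_isZero (isZero_zero T)⟩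
    | succ i ih =>
      intro hi
      obtain ⟨hP, hz, ⟨a', b', c', ht'⟩, -⟩ := h i (by omega)
      rcases le_or_gt t (φ i) with h1 | h1
      · exact ⟨X (i + 1), 0, (Iso.refl _).hom, 0, 0, tri_of_iso (Iso.refl _),
          (key i (by omega)).1.mono h1, lt_of_isZero (isZero_zero T)⟩
      · obtain ⟨A1, B1, a, b, c, ht, hA, hB⟩ := ih (by omega)
        obtain ⟨B2, p, q, r, s, w, k1, k2, k3, k4⟩ := octa ht ht'
        exact ⟨A1, B2, _, p, q, k1, hA, Lt.ext k2 hB ((le_of_P hP).lt h1)⟩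
  obtain ⟨A1, B1, a, b, c, ht, hA, hB⟩ := main n le_rfl
  exact ⟨A1, B1, _, _, c, tri_iso₂ ht e, hA, hB⟩

section rotated

variable {A E B : T} {a : A ⟶ E} {b : E ⟶ B} {c : B ⟶ A⟦(1 : ℤ)⟧}
  (ht : Triangle.mk a b c ∈ distTriang T)

include ht

lemma ge_quot {t : ℝ} (h2 : σ.Ge t E) (h1 : σ.Ge (t - 1) A) : σ.Ge t B :=
  Ge.ext (rot_of_distTriang _ ht) h2 (by simpa using h1.shift1)
lemma gt_quot {t : ℝ} (h2 : σ.Gt t E) (h1 : σ.Gt (t - 1) A) : σ.Gt t B :=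
  Gt.ext (rot_of_distTriang _ ht) h2 (by simpa using h1.shift1)
lemma le_quot {t : ℝ} (h2 : σ.Le t E) (h1 : σ.Le (t - 1) A) : σ.Le t B :=
  Le.ext (rot_of_distTriang _ ht) h2 (by simpa using h1.shift1)
lemma lt_quot {t : ℝ} (h2 : σ.Lt t E) (h1 : σ.Lt (t - 1) A) : σ.Lt t B :=
  Lt.ext (rot_of_distTriang _ ht) h2 (by simpa using h1.shift1)
lemma ge_sub {t : ℝ} (h2 : σ.Ge t E) (h3 : σ.Ge (t + 1) B) : σ.Ge t A :=
  Ge.ext (inv_rot_of_distTriang _ ht) (by simpa using h3.shiftm1) h2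
lemma gt_sub {t : ℝ} (h2 : σ.Gt t E) (h3 : σ.Gt (t + 1) B) : σ.Gt t A :=
  Gt.ext (inv_rot_of_distTriang _ ht) (by simpa using h3.shiftm1) h2
lemma le_sub {t : ℝ} (h2 : σ.Le t E) (h3 : σ.Le (t + 1) B) : σ.Le t A :=
  Le.ext (inv_rot_of_distTriang _ ht) (by simpa using h3.shiftm1) h2
lemma lt_sub {t : ℝ} (h2 : σ.Lt t E) (h3 : σ.Lt (t + 1) B) : σ.Lt t A :=
  Lt.ext (inv_rot_of_distTriang _ ht) (by simpa using h3.shiftm1) h2

/-- Extending morphisms along `A ⟶ E`. -/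
lemma extend {Y : T} (f : A ⟶ Y) (h : ∀ g : B⟦(-1 : ℤ)⟧ ⟶ Y, g = 0) : ∃ g : E ⟶ Y, a ≫ g = f := by
  obtain ⟨g, hg⟩ := Triangle.yoneda_exact₂ _ (inv_rot_of_distTriang _ ht) f (h _)
  exact ⟨g, hg.symm⟩

/-- Lifting morphisms along `E ⟶ B`. -/
lemma lift {Y : T} (f : Y ⟶ B) (h : ∀ g : Y ⟶ A⟦(1 : ℤ)⟧, g = 0) : ∃ g : Y ⟶ E, g ≫ b = f := by
  obtain ⟨g, hg⟩ := Triangle.coyoneda_exact₂ _ (rot_of_distTriang _ ht) f (h _)
  exact ⟨g, hg.symm⟩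

/-- Factoring through `E ⟶ B`. -/
lemma desc {Y : T} (f : E ⟶ Y) (h : a ≫ f = 0) : ∃ g : B ⟶ Y, b ≫ g = f := by
  obtain ⟨g, hg⟩ := Triangle.yoneda_exact₂ _ ht f h
  exact ⟨g, hg.symm⟩

/-- Factoring through `A ⟶ E`. -/
lemma fac {Y : T} (f : Y ⟶ E) (h : f ≫ b = 0) : ∃ g : Y ⟶ A, g ≫ a = f := by
  obtain ⟨g, hg⟩ := Triangle.coyoneda_exact₂ _ ht f h
  exact ⟨g, hg.symm⟩

/-- Factoring `A ⟶ Y` through `B⟦-1⟧ ⟶ A`: here `A⟦1⟧` version. -/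
lemma fac₃ {Y : T} (f : Y ⟶ B) (h : f ≫ c = 0) : ∃ g : Y ⟶ E, g ≫ b = f := by
  obtain ⟨g, hg⟩ := Triangle.coyoneda_exact₂ _ (rot_of_distTriang _ ht) f h
  exact ⟨g, hg.symm⟩

lemma desc₃ {Y : T} (f : B ⟶ Y) (h : b ≫ f = 0) : ∃ g : A⟦(1 : ℤ)⟧ ⟶ Y, c ≫ g = f := by
  obtain ⟨g, hg⟩ := Triangle.yoneda_exact₂ _ (rot_of_distTriang _ ht) f h
  exact ⟨g, hg.symm⟩

end rotated

end Slicing

end Pool.Agent.H934
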