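import Mathlib
import Pool.Agent.H934.Defs

set_option autoImplicit false
set_option linter.unusedSectionVars false
set_option linter.unusedVariables false

namespace Pool.Agent.H934

open Complex

/-- The unit vector of phase `x`. -/
noncomputable def uv (x : ℝ) : ℂ := Complex.exp (Real.pi * x * Complex.I)

lemma uv_add (x y : ℝ) : uv (x + y) = uv x * uv y := by
  unfold uv
  rw [← Complex.exp_add]
  congr 1
  push_cast
  ring

lemma uv_zero : uv 0 = 1 := by simp [uv]
lemma uv_one : uv 1 = -1 := by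
  unfold uv
  rw [Complex.ofReal_one, mul_one, Complex.exp_pi_mul_I]
lemma uv_ne_zero (x : ℝ) : uv x ≠ 0 := Complex.exp_ne_zero _

lemma uv_eq (x : ℝ) : uv x = ⟨Real.cos (Real.pi * x), Real.sin (Real.pi * x)⟩ := by
  unfold uv
  have h : ((Real.pi : ℂ) * (x : ℂ)) = ((Real.pi * x : ℝ) : ℂ) := by push_cast; rfl
  rw [h]
  apply Complex.ext
  · rw [Complex.exp_ofReal_mul_I_re]
  · rw [Complex.exp_ofReal_mul_I_im]

lemma uv_re (x : ℝ) : (uv x).re = Real.cos (Real.pi * x) := by rw [uv_eq]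
lemma uv_im (x : ℝ) : (uv x).im = Real.sin (Real.pi * x) := by rw [uv_eq]

lemma uv_int (n : ℤ) : uv n = (n.negOnePow : ℤ) := by
  rw [uv_eq]
  rcases Int.even_or_odd n with h | h
  · rw [Int.negOnePow_even n h]
    obtain ⟨k, rfl⟩ := h
    apply Complex.ext
    · have : Real.pi * ((k + k : ℤ) : ℝ) = k * (2 * Real.pi) := by push_cast; ring
      rw [this]
      simp
    · have : Real.pi * ((k + k : ℤ) : ℝ) = ((2 * k : ℤ) : ℝ) * Real.pi := by push_cast; ring
      rw [this, Real.sin_int_mul_pi]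
      simp
  · rw [Int.negOnePow_odd n h]
    obtain ⟨k, rfl⟩ := h
    apply Complex.ext
    · have : Real.pi * ((2 * k + 1 : ℤ) : ℝ) = k * (2 * Real.pi) + Real.pi := by push_cast; ring
      rw [this]
      simp
    · have : Real.pi * ((2 * k + 1 : ℤ) : ℝ) = ((2 * k + 1 : ℤ) : ℝ) * Real.pi := by push_cast; ring
      rw [this, Real.sin_int_mul_pi]
      simp

lemma uv_two_int (n : ℤ) : uv (2 * n) = 1 := by
  have : (2 * (n : ℝ)) = ((2 * n : ℤ) : ℝ) := by push_cast; ring
  rw [this, uv_int, Int.negOnePow_even _ (even_two_mul n)]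
  simp

/-- Two positive multiples of unit vectors are equal only if the phases agree modulo two. -/
lemma uv_inj {x y m n : ℝ} (hm : 0 < m) (hn : 0 < n) (h : (m : ℂ) * uv x = n * uv y) :
    m = n ∧ ∃ k : ℤ, x = y + 2 * k := by
  have h1 : ‖(m : ℂ) * uv x‖ = ‖(n : ℂ) * uv y‖ := by rw [h]
  have norm_uv : ∀ z, ‖uv z‖ = 1 := by
    intro z
    unfold uv
    have : ((Real.pi : ℂ) * (z : ℂ)) = ((Real.pi * z : ℝ) : ℂ) := by push_cast; rfl
    rw [this, Complex.norm_exp_ofReal_mul_I]
  rw [norm_mul, norm_mul, norm_uv, norm_uv, mul_one, mul_one, Complex.norm_of_nonneg hm.le,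
    Complex.norm_of_nonneg hn.le] at h1
  subst h1
  refine ⟨rfl, ?_⟩
  have h2 : uv x = uv y := mul_left_cancel₀ (by exact_mod_cast hm.ne') h
  unfold uv at h2
  rw [Complex.exp_eq_exp_iff_exists_int] at h2
  obtain ⟨k, hk⟩ := h2
  refine ⟨k, ?_⟩
  have hpi : (Real.pi : ℂ) * Complex.I ≠ 0 := by
    simp [Real.pi_ne_zero]
  have h3 : (x : ℂ) = y + 2 * k := by
    apply mul_left_cancel₀ hpi
    linear_combination hk
  exact_mod_cast h3

/-- Every nonzero complex number has a phase. -/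
lemma exists_uv {z : ℂ} (hz : z ≠ 0) : ∃ (m : ℝ) (x : ℝ), 0 < m ∧ z = m * uv x := by
  refine ⟨‖z‖, Complex.arg z / Real.pi, norm_pos_iff.2 hz, ?_⟩
  unfold uv
  have : ((Real.pi : ℂ) * ((Complex.arg z / Real.pi : ℝ) : ℂ)) = (Complex.arg z : ℂ) := by
    push_cast
    field_simp
  rw [this]
  exact (Complex.norm_mul_exp_arg_mul_I z).symm

/-- The oriented area. -/
noncomputable def area (z w : ℂ) : ℝ := z.re * w.im - z.im * w.re

lemma area_uv (x y m n : ℝ) : area (m * uv x) (n * uv y) = m * n * Real.sin (Real.pi * (y - x)) := by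
  have h1 : ((m : ℂ) * uv x).re = m * Real.cos (Real.pi * x) := by
    rw [Complex.re_ofReal_mul, uv_re]
  have h2 : ((m : ℂ) * uv x).im = m * Real.sin (Real.pi * x) := by
    rw [Complex.im_ofReal_mul, uv_im]
  have h3 : ((n : ℂ) * uv y).re = n * Real.cos (Real.pi * y) := by
    rw [Complex.re_ofReal_mul, uv_re]
  have h4 : ((n : ℂ) * uv y).im = n * Real.sin (Real.pi * y) := by
    rw [Complex.im_ofReal_mul, uv_im]
  unfold area
  rw [h1, h2, h3, h4, show Real.pi * (y - x) = Real.pi * y - Real.pi * x by ring, Real.sin_sub]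
  ring

lemma det_eq_area (g : ℂ →ₗ[ℝ] ℂ) : LinearMap.det g = area (g 1) (g Complex.I) := by
  rw [← LinearMap.det_toMatrix Complex.basisOneI g, Matrix.det_fin_two]
  simp [LinearMap.toMatrix_apply, area]
  ring

lemma area_map (g : ℂ →ₗ[ℝ] ℂ) (z w : ℂ) : area (g z) (g w) = LinearMap.det g * area z w := by
  have hz : g z = z.re • g 1 + z.im • g Complex.I := by
    rw [← map_smul, ← map_smul, ← map_add]
    congr 1
    apply Complex.ext <;> simp
  have hw : g w = w.re • g 1 + w.im • g Complex.I := by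
    rw [← map_smul, ← map_smul, ← map_add]
    congr 1
    apply Complex.ext <;> simp
  rw [det_eq_area, hz, hw]
  simp [area]
  ring

namespace GLTilde

lemma compat' (G : GLTilde) (x : ℝ) : ∃ m : ℝ, 0 < m ∧ G.g (uv x) = m * uv (G.f x) := G.compat x

lemma g_smul (G : GLTilde) (m : ℝ) (z : ℂ) : G.g ((m : ℂ) * z) = m * G.g z := by
  rw [← Complex.real_smul, map_smul, Complex.real_smul]

lemma per_int (G : GLTilde) (x : ℝ) (n : ℤ) : G.f (x + n) = G.f x + n := by
  induction n using Int.induction_on with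
  | zero => simp
  | succ i hi =>
    have : x + ((i + 1 : ℤ) : ℝ) = (x + (i : ℤ)) + 1 := by push_cast; ring
    rw [this, G.per, hi]; push_cast; ring
  | pred i hi =>
    have : x + ((-(i : ℤ) : ℤ) : ℝ) = (x + ((-(i : ℤ) - 1 : ℤ) : ℝ)) + 1 := by push_cast; ring
    rw [this, G.per] at hi
    have h2 : G.f (x + ((-(i : ℤ) - 1 : ℤ) : ℝ)) = G.f x + ((-(i : ℤ) : ℤ) : ℝ) - 1 := by linarith
    rw [h2]; push_cast; ring

lemma surj (G : GLTilde) : Function.Surjective G.f := by
  intro y
  have hz : G.g.symm (uv y) ≠ 0 := by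
    intro h
    apply uv_ne_zero y
    have := congrArg G.g h
    rwa [LinearEquiv.apply_symm_apply, map_zero] at this
  obtain ⟨m, x, hm, hx⟩ := exists_uv hz
  have h1 : G.g (G.g.symm (uv y)) = G.g (m * uv x) := by rw [hx]
  rw [LinearEquiv.apply_symm_apply, g_smul] at h1
  obtain ⟨n, hn, h2⟩ := G.compat' x
  rw [h2] at h1
  obtain ⟨-, k, hk⟩ := uv_inj (x := y) (y := G.f x) (m := 1) (n := m * n) one_pos
    (mul_pos hm hn) (by push_cast; rw [one_mul, h1]; ring)
  refine ⟨x + ((2 * k : ℤ) : ℝ), ?_⟩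
  rw [G.per_int, hk]
  push_cast
  ring

/-- Composition. -/
noncomputable def comp (A B : GLTilde) : GLTilde where
  g := B.g.trans A.g
  f := A.f ∘ B.f
  pos := by
    have : ((B.g.trans A.g : ℂ ≃ₗ[ℝ] ℂ) : ℂ →ₗ[ℝ] ℂ) = (A.g : ℂ →ₗ[ℝ] ℂ) ∘ₗ (B.g : ℂ →ₗ[ℝ] ℂ) := rfl
    rw [this, LinearMap.det_comp]
    exact mul_pos A.pos B.pos
  mono := A.mono.comp B.mono
  per x := by simp only [Function.comp_apply, B.per, A.per]
  compat x := by
    obtain ⟨m, hm, h1⟩ := B.compat x
    obtain ⟨n, hn, h2⟩ := A.compat (B.f x)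
    refine ⟨m * n, mul_pos hm hn, ?_⟩
    rw [LinearEquiv.trans_apply, h1, g_smul, h2]
    change _ = ((m * n : ℝ) : ℂ) * Complex.exp (Real.pi * ((A.f (B.f x) : ℝ) : ℂ) * Complex.I)
    push_cast
    ring

/-- The inverse. -/
noncomputable def inv (A : GLTilde) : GLTilde where
  g := A.g.symm
  f := fun y => (A.surj y).choose
  pos := by
    have h1 := A.pos
    have h2 : LinearMap.det (A.g.symm : ℂ →ₗ[ℝ] ℂ) * LinearMap.det (A.g : ℂ →ₗ[ℝ] ℂ) = 1 := by
      rw [← LinearMap.det_comp]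
      have : (A.g.symm : ℂ →ₗ[ℝ] ℂ) ∘ₗ (A.g : ℂ →ₗ[ℝ] ℂ) = LinearMap.id := by
        ext x <;> simp
      rw [this, LinearMap.det_id]
    by_contra h3
    push Not at h3
    nlinarith
  mono := by
    intro x y hxy
    have hx := (A.surj x).choose_spec
    have hy := (A.surj y).choose_spec
    rw [← A.mono.lt_iff_lt, hx, hy]
    exact hxy
  per x := by
    have hx := (A.surj x).choose_spec
    have hy := (A.surj (x + 1)).choose_spec
    apply A.mono.injective
    rw [hy, A.per, hx]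
  compat x := by
    have hx := (A.surj x).choose_spec
    obtain ⟨m, hm, h1⟩ := A.compat (A.surj x).choose
    refine ⟨m⁻¹, inv_pos.2 hm, ?_⟩
    rw [LinearEquiv.symm_apply_eq, g_smul, h1, hx]
    have : (m : ℂ) ≠ 0 := by exact_mod_cast hm.ne'
    push_cast
    field_simp

lemma f_inv (A : GLTilde) (y : ℝ) : A.f (A.inv.f y) = y := (A.surj y).choose_spec
lemma inv_f (A : GLTilde) (x : ℝ) : A.inv.f (A.f x) = x := A.mono.injective (A.f_inv _)

/-- Translation by an even integer. -/
noncomputable def trans (k : ℤ) : GLTilde where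
  g := LinearEquiv.refl ℝ ℂ
  f := fun x => x + 2 * k
  pos := by
    have : ((LinearEquiv.refl ℝ ℂ : ℂ ≃ₗ[ℝ] ℂ) : ℂ →ₗ[ℝ] ℂ) = LinearMap.id := rfl
    rw [this, LinearMap.det_id]
    exact one_pos
  mono := fun x y h => by simpa using h
  per x := by ring
  compat x := by
    refine ⟨1, one_pos, ?_⟩
    change uv x = ((1 : ℝ) : ℂ) * uv (x + 2 * k)
    rw [uv_add, uv_two_int]
    simp

/-- Multiplication by the unit vector of phase `s`, as a linear automorphism. -/
noncomputable def rotL (s : ℝ) : ℂ ≃ₗ[ℝ] ℂ where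
  toFun z := uv s * z
  map_add' := fun x y => by ring
  map_smul' := fun r x => by simp; ring
  invFun z := uv (-s) * z
  left_inv z := by
    change uv (-s) * (uv s * z) = z
    rw [← mul_assoc, ← uv_add]; simp [uv_zero]
  right_inv z := by
    change uv s * (uv (-s) * z) = z
    rw [← mul_assoc, ← uv_add]; simp [uv_zero]

/-- A lift of a rotation is a translation. -/
lemma f_of_rot (G : GLTilde) (s : ℝ) (h : ∀ z, G.g z = uv s * z) :
    ∃ n : ℤ, ∀ x, G.f x = x + s + 2 * n := by
  have h1 : ∀ x, ∃ n : ℤ, G.f x = x + s + 2 * n := by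
    intro x
    obtain ⟨m, hm, h2⟩ := G.compat' x
    rw [h, ← uv_add] at h2
    obtain ⟨-, k, hk⟩ := uv_inj (x := s + x) (y := G.f x) (m := 1) (n := m) one_pos hm
      (by rw [← h2]; push_cast; ring)
    exact ⟨-k, by push_cast; linarith⟩
  choose n hn using h1
  have h3 : ∀ x y, x ≤ y → y ≤ x + 1 → n y = n x := by
    intro x y hxy hyx
    have h4 := G.mono.monotone hxy
    have h5 := G.mono.monotone hyx
    rw [G.per, hn, hn] at h5
    rw [hn, hn] at h4
    have h6 : ((n y - n x : ℤ) : ℝ) < 1 := by push_cast; linarith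
    have h7 : (-1 : ℝ) < ((n y - n x : ℤ) : ℝ) := by push_cast; linarith
    have h8 : n y - n x < 1 := by exact_mod_cast h6
    have h9 : -1 < n y - n x := by exact_mod_cast h7
    omega
  have h4 : ∀ k : ℤ, n (k : ℝ) = n 0 := by
    intro k
    induction k using Int.induction_on with
    | zero => simp
    | succ i hi => rw [← hi]; exact h3 _ _ (by push_cast; linarith) (by push_cast; linarith)
    | pred i hi => rw [← hi]; exact (h3 _ _ (by push_cast; linarith) (by push_cast; linarith)).symm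
  refine ⟨n 0, fun x => ?_⟩
  rw [hn x, h3 (⌊x⌋ : ℝ) x (Int.floor_le x) (Int.lt_floor_add_one x).le, h4]

/-- Lifts exist. -/
theorem exists_lift (g : ℂ ≃ₗ[ℝ] ℂ) (hg : 0 < LinearMap.det (g : ℂ →ₗ[ℝ] ℂ)) :
    ∃ G : GLTilde, G.g = g := by
  have hne : ∀ x, g (uv x) ≠ 0 := fun x h => uv_ne_zero x ((LinearEquiv.map_eq_zero_iff g).1 h)
  have h1ne : g 1 ≠ 0 := by have := hne 0; rwa [uv_zero] at this
  obtain ⟨m₀, c, hm₀, hc⟩ := exists_uv h1ne
  -- areas of images
  have harea : ∀ x y, area (g (uv x)) (g (uv y)) =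
      LinearMap.det (g : ℂ →ₗ[ℝ] ℂ) * Real.sin (Real.pi * (y - x)) := by
    intro x y
    have h1 := area_map (g : ℂ →ₗ[ℝ] ℂ) (uv x) (uv y)
    have h2 := area_uv x y 1 1
    simp only [Complex.ofReal_one, one_mul] at h2
    rw [h2] at h1
    exact h1
  have ex : ∀ x, 0 ≤ x → x < 1 → ∃ (m t : ℝ), 0 < m ∧ 0 ≤ t ∧ t < 1 ∧
      g (uv x) = m * uv (c + t) := by
    intro x hx0 hx1
    obtain ⟨m, y, hm, hy⟩ := exists_uv (hne x)
    -- reduce y - c to [0, 2)
    obtain ⟨k, hk0, hk1⟩ : ∃ k : ℤ, 0 ≤ (y - c) - 2 * k ∧ (y - c) - 2 * k < 2 := by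
      refine ⟨⌊(y - c) / 2⌋, ?_, ?_⟩
      · have := Int.floor_le ((y - c) / 2); linarith
      · have := Int.lt_floor_add_one ((y - c) / 2); linarith
    have hy' : g (uv x) = m * uv (c + ((y - c) - 2 * k)) := by
      rw [hy]
      have : y = (c + ((y - c) - 2 * k)) + 2 * k := by ring
      conv_lhs => rw [this, uv_add, uv_two_int]
      rw [mul_one]
    have ha := harea 0 x
    rw [uv_zero, hc, hy', area_uv] at ha
    have hsin : 0 ≤ Real.sin (Real.pi * (x - 0)) := by
      apply Real.sin_nonneg_of_nonneg_of_le_pi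
      · rw [sub_zero]; exact mul_nonneg Real.pi_pos.le hx0
      · rw [sub_zero]; nlinarith [Real.pi_pos]
    set u := (y - c) - 2 * k with hu
    have hu1 : u ≤ 1 := by
      by_contra hcon
      push Not at hcon
      have h3 : Real.sin (Real.pi * (c + u - c)) < 0 := by
        have h4 : Real.pi * (c + u - c) = Real.pi * (u - 1) + Real.pi := by ring
        rw [h4, Real.sin_add_pi]
        have h5 : 0 < Real.sin (Real.pi * (u - 1)) := by
          apply Real.sin_pos_of_pos_of_lt_pi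
          · exact mul_pos Real.pi_pos (by linarith)
          · nlinarith [Real.pi_pos]
        linarith
      have h6 : m₀ * m * Real.sin (Real.pi * (c + u - c)) < 0 :=
        mul_neg_of_pos_of_neg (mul_pos hm₀ hm) h3
      have h7 : 0 ≤ LinearMap.det (g : ℂ →ₗ[ℝ] ℂ) * Real.sin (Real.pi * (x - 0)) :=
        mul_nonneg hg.le hsin
      linarith
    have hu2 : u ≠ 1 := by
      intro h3
      rcases hx0.eq_or_lt with h4 | h4
      · subst h4
        rw [uv_zero, hc, h3] at hy'
        have h5 := (uv_inj hm₀ hm hy').2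
        obtain ⟨j, hj⟩ := h5
        have h6 : (1 : ℝ) + 2 * j = 0 := by linarith
        have h7 : (1 : ℤ) + 2 * j = 0 := by exact_mod_cast h6
        omega
      · have h5 : 0 < Real.sin (Real.pi * (x - 0)) := by
          apply Real.sin_pos_of_pos_of_lt_pi
          · rw [sub_zero]; exact mul_pos Real.pi_pos h4
          · rw [sub_zero]; nlinarith [Real.pi_pos]
        have h6 := mul_pos hg h5
        rw [← ha, h3] at h6
        have h7 : Real.pi * (c + 1 - c) = Real.pi := by ring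
        rw [h7, Real.sin_pi, mul_zero] at h6
        exact lt_irrefl _ h6
    exact ⟨m, u, hm, hk0, lt_of_le_of_ne hu1 hu2, hy'⟩
  choose! M θ hM hθ0 hθ1 hθ using ex
  have hmono : ∀ x y, 0 ≤ x → x < y → y < 1 → θ x < θ y := by
    intro x y hx hxy hy
    have h1 := harea x y
    rw [hθ x hx (hxy.trans hy), hθ y (hx.trans hxy.le) hy, area_uv] at h1
    have h2 : 0 < Real.sin (Real.pi * (y - x)) := by
      apply Real.sin_pos_of_pos_of_lt_pi
      · exact mul_pos Real.pi_pos (by linarith)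
      · nlinarith [Real.pi_pos]
    have h3 := mul_pos hg h2
    rw [← h1] at h3
    have h4 : 0 < M x * M y := mul_pos (hM x hx (hxy.trans hy)) (hM y (hx.trans hxy.le) hy)
    have h5 : 0 < Real.sin (Real.pi * (c + θ y - (c + θ x))) := by
      by_contra h6
      push Not at h6
      have := mul_nonpos_of_nonneg_of_nonpos h4.le h6
      linarith
    by_contra h6
    push Not at h6
    have h7 : Real.sin (Real.pi * (c + θ y - (c + θ x))) ≤ 0 := by
      apply Real.sin_nonpos_of_nonpos_of_neg_pi_le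
      · have : c + θ y - (c + θ x) ≤ 0 := by linarith
        exact mul_nonpos_of_nonneg_of_nonpos Real.pi_pos.le this
      · have h8 : -1 ≤ c + θ y - (c + θ x) := by
          have := hθ0 y (hx.trans hxy.le) hy
          have := hθ1 x hx (hxy.trans hy)
          linarith
        nlinarith [Real.pi_pos]
    linarith
  refine ⟨⟨g, fun x => ⌊x⌋ + (c + θ (Int.fract x)), hg, ?_, ?_, ?_⟩, rfl⟩
  · intro x y hxy
    change (⌊x⌋ : ℝ) + (c + θ (Int.fract x)) < ⌊y⌋ + (c + θ (Int.fract y))
    rcases (Int.floor_mono hxy.le).eq_or_lt with h | h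
    · have hf : Int.fract x < Int.fract y := by
        rw [Int.fract, Int.fract, h]; linarith
      have := hmono _ _ (Int.fract_nonneg x) hf (Int.fract_lt_one y)
      rw [h]; linarith
    · have h1 : (⌊x⌋ : ℝ) + 1 ≤ ⌊y⌋ := by exact_mod_cast h
      have h2 := hθ1 _ (Int.fract_nonneg x) (Int.fract_lt_one x)
      have h3 := hθ0 _ (Int.fract_nonneg y) (Int.fract_lt_one y)
      linarith
  · intro x
    change ((⌊x + 1⌋ : ℤ) : ℝ) + (c + θ (Int.fract (x + 1))) = ⌊x⌋ + (c + θ (Int.fract x)) + 1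
    rw [Int.floor_add_one, Int.fract_add_one]
    push_cast
    ring
  · intro x
    refine ⟨M (Int.fract x), hM _ (Int.fract_nonneg x) (Int.fract_lt_one x), ?_⟩
    change g (uv x) = M (Int.fract x) * uv (⌊x⌋ + (c + θ (Int.fract x)))
    have h1 : uv x = uv (⌊x⌋ : ℝ) * uv (Int.fract x) := by
      rw [← uv_add, Int.floor_add_fract]
    rw [h1, uv_add (⌊x⌋ : ℝ), uv_int]
    have h2 : (((⌊x⌋.negOnePow : ℤˣ) : ℤ) : ℂ) = ((((⌊x⌋.negOnePow : ℤˣ) : ℤ) : ℝ) : ℂ) := by
      push_cast; rfl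
    rw [h2, ← Complex.real_smul, map_smul, Complex.real_smul,
      hθ _ (Int.fract_nonneg x) (Int.fract_lt_one x)]
    ring

end GLTilde

end Pool.Agent.H934
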