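import Mathlib
import Pool.Agent.H934.HN
import Pool.Agent.H934.Numer

set_option autoImplicit false
set_option linter.unusedSectionVars false
set_option linter.unusedVariables false

open CategoryTheory CategoryTheory.Limits CategoryTheory.Pretriangulated ZeroObject

namespace Pool.Agent.H934

universe v u

section trig

lemma sin_pi_pos {t : ℝ} (h0 : 0 < t) (h1 : t < 1) : 0 < Real.sin (Real.pi * t) := by
  apply Real.sin_pos_of_pos_of_lt_pi
  · exact mul_pos Real.pi_pos h0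
  · nlinarith [Real.pi_pos]

lemma sin_pi_nonneg {t : ℝ} (h0 : 0 ≤ t) (h1 : t ≤ 1) : 0 ≤ Real.sin (Real.pi * t) := by
  apply Real.sin_nonneg_of_nonneg_of_le_pi
  · exact mul_nonneg Real.pi_pos.le h0
  · nlinarith [Real.pi_pos]

lemma sin_pi_add_one (t : ℝ) : Real.sin (Real.pi * (t + 1)) = - Real.sin (Real.pi * t) := by
  rw [show Real.pi * (t + 1) = Real.pi * t + Real.pi by ring, Real.sin_add_pi]

lemma sin_pi_neg {t : ℝ} (h0 : -1 < t) (h1 : t < 0) : Real.sin (Real.pi * t) < 0 := by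
  have h := sin_pi_pos (t := t + 1) (by linarith) (by linarith)
  rw [sin_pi_add_one] at h
  linarith

lemma le_one_of_sin {t : ℝ} (h0 : 0 ≤ t) (h2 : t < 2) (h : 0 ≤ Real.sin (Real.pi * t)) :
    t ≤ 1 := by
  by_contra hc
  push Not at hc
  have h3 := sin_pi_pos (t := t - 1) (by linarith) (by linarith)
  have h4 := sin_pi_add_one (t - 1)
  rw [sub_add_cancel] at h4
  linarith

lemma nonneg_of_sin {t : ℝ} (h0 : -1 < t) (h : 0 ≤ Real.sin (Real.pi * t)) : 0 ≤ t := by
  by_contra hc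
  push Not at hc
  have := sin_pi_neg h0 hc
  linarith

/-- Sums in a sector. -/
lemma sum_uv {a b x y m n : ℝ} (hab : b - a < 1) (hm : 0 < m) (hn : 0 < n) (hxa : a ≤ x)
    (hxb : x ≤ b) (hya : a ≤ y) (hyb : y ≤ b) :
    ∃ (l z : ℝ), 0 < l ∧ a ≤ z ∧ z ≤ b ∧ (m : ℂ) * uv x + n * uv y = l * uv z := by
  have area_add : ∀ u v w : ℂ, area u (v + w) = area u v + area u w := by
    intro u v w; simp only [area, Complex.add_re, Complex.add_im]; ring
  have area_add' : ∀ u v w : ℂ, area (v + w) u = area v u + area w u := by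
    intro u v w; simp only [area, Complex.add_re, Complex.add_im]; ring
  set w : ℂ := (m : ℂ) * uv x + n * uv y with hw
  have hne : w ≠ 0 := by
    intro h0
    have h1 : area (((1 : ℝ) : ℂ) * uv x) w = 0 := by
      rw [h0]; simp [area]
    rw [hw, area_add, area_uv, area_uv, sub_self, mul_zero, Real.sin_zero, mul_zero, zero_add,
      one_mul] at h1
    have h2 : Real.sin (Real.pi * (y - x)) = 0 := by
      rcases mul_eq_zero.1 h1 with h3 | h3
      · exact absurd h3 hn.ne'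
      · exact h3
    have h3 : 0 ≤ y - x := nonneg_of_sin (by linarith) h2.ge
    have h4 : 0 ≤ x - y := nonneg_of_sin (by linarith) (by
      rw [show Real.pi * (x - y) = - (Real.pi * (y - x)) by ring, Real.sin_neg, h2, neg_zero])
    have h5 : x = y := by linarith
    rw [hw, h5, ← add_mul] at h0
    rcases mul_eq_zero.1 h0 with h6 | h6
    · have : (m + n : ℝ) = 0 := by exact_mod_cast h6
      linarith
    · exact uv_ne_zero y h6
  obtain ⟨l, z, hl, hz⟩ := exists_uv hne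
  obtain ⟨ε, hε0, hε1⟩ : ∃ ε : ℝ, 0 < ε ∧ b - a + ε < 1 :=
    ⟨(1 - (b - a)) / 2, by linarith, by linarith⟩
  obtain ⟨k, hk0, hk1⟩ : ∃ k : ℤ, 0 ≤ (z - (a - ε)) - 2 * k ∧ (z - (a - ε)) - 2 * k < 2 := by
    refine ⟨⌊(z - (a - ε)) / 2⌋, ?_, ?_⟩
    · have := Int.floor_le ((z - (a - ε)) / 2); linarith
    · have := Int.lt_floor_add_one ((z - (a - ε)) / 2); linarith
  have hz' : w = l * uv (z - 2 * k) := by
    rw [hz]
    have : z = (z - 2 * k) + 2 * k := by ring
    conv_lhs => rw [this, uv_add, uv_two_int]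
    rw [mul_one]
  set t := z - 2 * k with ht
  have hpos : ∀ {r : ℝ}, 0 ≤ l * r → 0 ≤ r := by
    intro r hr
    by_contra hc
    push Not at hc
    have := mul_neg_of_pos_of_neg hl hc
    linarith
  have h0 : 0 < area (((1 : ℝ) : ℂ) * uv (a - ε)) w := by
    rw [hw, area_add, area_uv, area_uv]
    have h1 := sin_pi_pos (t := x - (a - ε)) (by linarith) (by linarith)
    have h2 := sin_pi_pos (t := y - (a - ε)) (by linarith) (by linarith)
    have h3 := mul_pos hm h1
    have h4 := mul_pos hn h2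
    linarith
  have ha : 0 ≤ area (((1 : ℝ) : ℂ) * uv a) w := by
    rw [hw, area_add, area_uv, area_uv]
    have h1 := sin_pi_nonneg (t := x - a) (by linarith) (by linarith)
    have h2 := sin_pi_nonneg (t := y - a) (by linarith) (by linarith)
    have h3 := mul_nonneg hm.le h1
    have h4 := mul_nonneg hn.le h2
    linarith
  have hb : 0 ≤ area w (((1 : ℝ) : ℂ) * uv b) := by
    rw [hw, area_add', area_uv, area_uv]
    have h1 := sin_pi_nonneg (t := b - x) (by linarith) (by linarith)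
    have h2 := sin_pi_nonneg (t := b - y) (by linarith) (by linarith)
    have h3 := mul_nonneg hm.le h1
    have h4 := mul_nonneg hn.le h2
    linarith
  rw [hz', area_uv, one_mul] at h0
  rw [hz', area_uv, one_mul] at ha
  rw [hz', area_uv, mul_one] at hb
  have h1 : t - (a - ε) ≤ 1 := le_one_of_sin (by linarith) (by linarith) (hpos h0.le)
  have h1' : t - (a - ε) ≠ 1 := by
    intro h2
    rw [h2, mul_one, Real.sin_pi, mul_zero] at h0
    exact lt_irrefl _ h0
  have h1'' := lt_of_le_of_ne h1 h1'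
  have h2 : 0 ≤ b - t := nonneg_of_sin (by linarith) (hpos hb)
  have h3 : 0 ≤ t - a := nonneg_of_sin (by linarith) (hpos ha)
  exact ⟨l, t, hl, by linarith, by linarith, hz'⟩

end trig

variable {T : Type u} [Category.{v} T] [Preadditive T] [HasZeroObject T] [HasShift T ℤ]
  [∀ n : ℤ, (shiftFunctor T n).Additive] [Pretriangulated T] [IsTriangulated T]

namespace Slicing

/-- Reparametrisation of the phases. -/
noncomputable def reparam (σ : Slicing T) (G : GLTilde) : Slicing T where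
  P φ E := σ.P (G.f φ) E
  iso φ E F e h := σ.iso _ _ _ e h
  zero φ E h := σ.zero _ _ h
  shift φ E := by rw [G.per]; exact σ.shift _ _
  hom φ ψ E F h h1 h2 := σ.hom _ _ _ _ (G.mono h) h1 h2
  hn E := by
    obtain ⟨n, X, A, φ, h0, e, h⟩ := σ.hn E
    refine ⟨n, X, A, fun i => G.inv.f (φ i), h0, e, fun i hi => ?_⟩
    obtain ⟨h1, h2, h3, h4⟩ := h i hi
    refine ⟨?_, h2, h3, fun hi' => G.inv.mono (h4 hi')⟩
    change σ.P (G.f (G.inv.f (φ i))) (A i)
    rw [G.f_inv]; exact h1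

variable {σ : Slicing T}

/-- The phase of a nonzero semistable object is well-defined. -/
lemma phase_unique {φ ψ : ℝ} {E : T} (h1 : σ.P φ E) (h2 : σ.P ψ E) (hz : ¬ IsZero E) : φ = ψ := by
  rcases lt_trichotomy φ ψ with h | h | h
  · exact absurd ((IsZero.iff_id_eq_zero E).2 (σ.hom ψ φ E E h h2 h1 (𝟙 E))) hz
  · exact h
  · exact absurd ((IsZero.iff_id_eq_zero E).2 (σ.hom φ ψ E E h h1 h2 (𝟙 E))) hz

/-- An autoequivalence which raises all phases by `c`. -/
def Shifts (σ : Slicing T) (Φ : T ≌ T) (c : ℝ) : Prop :=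
  ∀ φ E, σ.P φ E ↔ σ.P (φ + c) (Φ.functor.obj E)

lemma Shifts.trans {Φ Ψ : T ≌ T} {c d : ℝ} (h1 : σ.Shifts Φ c) (h2 : σ.Shifts Ψ d) :
    σ.Shifts (Φ.trans Ψ) (c + d) := by
  intro φ E
  rw [h1, h2, add_assoc]
  rfl

lemma Shifts.refl : σ.Shifts (CategoryTheory.Equivalence.refl) 0 := by
  intro φ E
  rw [add_zero]
  rfl

lemma Shifts.shift (n : ℤ) : σ.Shifts (shiftEquiv T n) n := fun φ E => (P_shift_iff n).symm

lemma Shifts.symm {Φ : T ≌ T} {c : ℝ} (h : σ.Shifts Φ c) : σ.Shifts Φ.symm (-c) := by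
  intro φ E
  rw [h (φ + -c)]
  rw [neg_add_cancel_right]
  constructor
  · intro h1
    exact σ.iso _ _ _ ⟨(Φ.counitIso.app E).symm⟩ h1
  · intro h1
    exact σ.iso _ _ _ ⟨Φ.counitIso.app E⟩ h1

lemma eq_zero_of_map {Φ : T ≌ T} {X Y : T} (f : Φ.functor.obj X ⟶ Y)
    (h : ∀ g : X ⟶ Φ.inverse.obj Y, g = 0) : f = 0 := by
  have h1 := h (Φ.unit.app X ≫ Φ.inverse.map f)
  have h2 : Φ.inverse.map f = 0 := by
    rw [← cancel_epi (Φ.unit.app X), h1, comp_zero]
  apply Φ.inverse.map_injective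
  rw [h2, Functor.map_zero]

lemma eq_zero_of_map' {Φ : T ≌ T} {X Y : T} (f : Y ⟶ Φ.functor.obj X)
    (h : ∀ g : Φ.inverse.obj Y ⟶ X, g = 0) : f = 0 := by
  have h1 := h (Φ.inverse.map f ≫ Φ.unitInv.app X)
  have h2 : Φ.inverse.map f = 0 := by
    rw [← cancel_mono (Φ.unitInv.app X), h1, zero_comp]
  apply Φ.inverse.map_injective
  rw [h2, Functor.map_zero]

lemma Shifts.P_inv {Φ : T ≌ T} {c : ℝ} (h : σ.Shifts Φ c) {ψ : ℝ} {X : T} (hX : σ.P ψ X) :
    σ.P (ψ - c) (Φ.inverse.obj X) := (h.symm ψ X).1 hX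

lemma Ge.map {Φ : T ≌ T} {c t : ℝ} (h : σ.Shifts Φ c) {E : T} (hE : σ.Ge t E) :
    σ.Ge (t + c) (Φ.functor.obj E) := by
  intro ψ hψ X hX f
  exact eq_zero_of_map f (fun g => hE (ψ - c) (by linarith) _ (h.P_inv hX) g)
lemma Gt.map {Φ : T ≌ T} {c t : ℝ} (h : σ.Shifts Φ c) {E : T} (hE : σ.Gt t E) :
    σ.Gt (t + c) (Φ.functor.obj E) := by
  intro ψ hψ X hX f
  exact eq_zero_of_map f (fun g => hE (ψ - c) (by linarith) _ (h.P_inv hX) g)
lemma Le.map {Φ : T ≌ T} {c t : ℝ} (h : σ.Shifts Φ c) {E : T} (hE : σ.Le t E) :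
    σ.Le (t + c) (Φ.functor.obj E) := by
  intro ψ hψ X hX f
  exact eq_zero_of_map' f (fun g => hE (ψ - c) (by linarith) _ (h.P_inv hX) g)
lemma Lt.map {Φ : T ≌ T} {c t : ℝ} (h : σ.Shifts Φ c) {E : T} (hE : σ.Lt t E) :
    σ.Lt (t + c) (Φ.functor.obj E) := by
  intro ψ hψ X hX f
  exact eq_zero_of_map' f (fun g => hE (ψ - c) (by linarith) _ (h.P_inv hX) g)

end Slicing

variable [Linear ℂ T] [∀ n : ℤ, (shiftFunctor T n).Linear ℂ]

/-- Serre duality for vanishing. -/
lemma serre_zero (𝒮 : SerreFunctor T) {E F : T} (h : ∀ g : F ⟶ 𝒮.o E, g = 0) (f : E ⟶ F) :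
    f = 0 := by
  apply (𝒮.η E F).injective
  rw [map_zero]
  refine LinearMap.ext fun g => ?_
  rw [h g, map_zero, map_zero]

lemma serre_zero' (𝒮 : SerreFunctor T) {E F : T} (h : ∀ g : E ⟶ F, g = 0) (f : F ⟶ 𝒮.o E) :
    f = 0 := by
  by_contra hf
  obtain ⟨ℓ, hℓ⟩ : ∃ ℓ : Module.Dual ℂ (F ⟶ 𝒮.o E), ℓ f ≠ 0 := by
    by_contra hc
    push Not at hc
    exact hf ((Module.forall_dual_apply_eq_zero_iff ℂ f).1 hc)
  apply hℓ
  have h1 := h ((𝒮.η E F).symm ℓ)
  have h2 : ℓ = 0 := by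
    rw [← (𝒮.η E F).apply_symm_apply ℓ, h1, map_zero]
  rw [h2]; rfl

/-- The Euler form is nonpositive when the even part vanishes. -/
lemma eul_nonpos (hT : ExtFinite T) {E F : T} (h : ∀ i : ℤ, Even i → ∀ f : E ⟶ F⟦i⟧, f = 0) :
    eul E F ≤ 0 := by
  obtain ⟨N, hN⟩ := hT.bdd E F
  have h1 : eul E F = _ := Pool.Agent.H969R2.chi_eq_sum (E := E) (F := F) N hN
  rw [h1]
  apply Finset.sum_nonpos
  intro i _
  rcases Int.even_or_odd i with hi | hi
  · have : Subsingleton (E ⟶ F⟦i⟧) := ⟨fun a b => by rw [h i hi a, h i hi b]⟩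
    rw [Module.finrank_zero_of_subsingleton]; simp
  · rw [Int.negOnePow_odd _ hi]
    simp

/-- A slicing normalised with respect to the numerical data. -/
structure IsNorm {𝒮 : SerreFunctor T} {s : ℝ} (D : NumData 𝒮 s) (σ : Slicing T) : Prop where
  ph : ∀ φ E, σ.P φ E → ¬ IsZero E → ∃ m : ℝ, 0 < m ∧ D.Z E = m * uv φ
  ser : σ.Shifts 𝒮.S s

namespace NumData

variable {𝒮 : SerreFunctor T} {s : ℝ} (D : NumData 𝒮 s)

/-- The Euler form in terms of phases. -/
lemma chi_uv {X Y : T} {m n x y : ℝ} (hX : D.Z X = m * uv x) (hY : D.Z Y = n * uv y)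
    (hcos : Real.cos (Real.pi * s) = 1 / 2) :
    (eul X Y : ℝ) * Real.sin (Real.pi * s) =
      - D.q * (m * n) * Real.sin (Real.pi * (s + (y - x))) := by
  have h1 : (starRingEnd ℂ) (uv x) * uv y = uv (y - x) := by
    have : (starRingEnd ℂ) (uv x) = uv (-x) := by
      unfold uv
      rw [← Complex.exp_conj]
      congr 1
      simp
    rw [this, ← uv_add]
    congr 1
    ring
  have h2 : (starRingEnd ℂ) (D.Z X) * D.Z Y = ((m * n : ℝ) : ℂ) * uv (y - x) := by
    rw [hX, hY, ← h1, map_mul, Complex.conj_ofReal]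
    push_cast
    ring
  rw [D.chi, h2, Complex.re_ofReal_mul, Complex.im_ofReal_mul, uv_re, uv_im]
  have h3 := D.hκ
  rw [uv_im] at h3
  rw [show Real.pi * (s + (y - x)) = Real.pi * s + Real.pi * (y - x) by ring, Real.sin_add, hcos]
  linear_combination (- D.q * (m * n) * Real.sin (Real.pi * (y - x))) * h3

end NumData

end Pool.Agent.H934
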