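import Mathlib
import Pool.Agent.H934.Norm2

set_option autoImplicit false
set_option linter.unusedSectionVars false
set_option linter.unusedVariables false

open CategoryTheory CategoryTheory.Limits CategoryTheory.Pretriangulated ZeroObject

namespace Pool.Agent.H934

universe v u

lemma conj_uv (φ : ℝ) : (starRingEnd ℂ) (uv φ) = uv (-φ) := by
  unfold uv
  rw [← Complex.exp_conj]
  congr 1
  simp

lemma conj_uv_mul (φ : ℝ) : (starRingEnd ℂ) (uv φ) * uv φ = 1 := by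
  rw [conj_uv, ← uv_add, neg_add_cancel, uv_zero]

lemma im_conj_mul (φ z m : ℝ) :
    ((starRingEnd ℂ) (uv φ) * ((m : ℂ) * uv z)).im = m * Real.sin (Real.pi * (z - φ)) := by
  have h3 : (starRingEnd ℂ) (uv φ) * ((m : ℂ) * uv z) = (m : ℂ) * uv (z - φ) := by
    rw [conj_uv, show z - φ = -φ + z by ring, uv_add]; ring
  rw [h3, Complex.im_ofReal_mul, uv_im]

variable {T : Type u} [Category.{v} T] [Preadditive T] [HasZeroObject T] [HasShift T ℤ]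
  [∀ n : ℤ, (shiftFunctor T n).Additive] [Pretriangulated T] [IsTriangulated T]

/-- An additive function on objects compatible with a slicing. -/
structure IsCharge (σ : Slicing T) (W : T → ℂ) : Prop where
  add : ∀ Δ : Triangle T, Δ ∈ distTriang T → W Δ.obj₂ = W Δ.obj₁ + W Δ.obj₃
  iso : ∀ E F : T, (E ≅ F) → W E = W F
  ph : ∀ φ E, σ.P φ E → ¬ IsZero E → ∃ m : ℝ, 0 < m ∧ W E = m * uv φ

open Slicing

namespace IsCharge

variable {σ : Slicing T} {W : T → ℂ} (hW : IsCharge σ W)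

include hW

lemma zero {E : T} (h : IsZero E) : W E = 0 := by
  have h2 : W E = W E + W (0 : T) := hW.add _ (contractible_distinguished E)
  have h3 : W E = W (0 : T) := hW.iso _ _ (h.iso (isZero_zero T))
  rw [← h3] at h2
  have : W E + W E - W E = 0 := by rw [← h2]; ring
  linear_combination this

lemma shift (E : T) : W (E⟦(1 : ℤ)⟧) = - W E := by
  have h2 := hW.add _ (rot_of_distTriang _ (contractible_distinguished E))
  have h3 : W (0 : T) = W E + W (E⟦(1 : ℤ)⟧) := h2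
  rw [hW.zero (isZero_zero T)] at h3
  linear_combination (-1 : ℂ) * h3

lemma ne_zero {φ : ℝ} {E : T} (hE : σ.P φ E) (hz : ¬ IsZero E) : W E ≠ 0 := by
  obtain ⟨m, hm, h⟩ := hW.ph φ E hE hz
  rw [h]
  exact mul_ne_zero (by exact_mod_cast hm.ne') (uv_ne_zero _)

/-- The class of an object with phases in a short interval. -/
lemma sector {a b : ℝ} (hab : b - a < 1) {E : T}
    (h1 : σ.Ge a E) (h2 : σ.Le b E) (hz : ¬ IsZero E) :
    ∃ (m x : ℝ), 0 < m ∧ a ≤ x ∧ x ≤ b ∧ W E = m * uv x := by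
  have key : IsZero E ∨ ∃ (m x : ℝ), 0 < m ∧ a ≤ x ∧ x ≤ b ∧ W E = m * uv x := by
    refine σ.ind (E := E) (p := fun X => IsZero X ∨
      ∃ (m x : ℝ), 0 < m ∧ a ≤ x ∧ x ≤ b ∧ W X = m * uv x)
      (fun Z hZ => Or.inl hZ) (fun X Y e h => ?_) (fun Δ hΔ h1 h3 => ?_)
      (fun ψ X hX hX0 hge _ hle _ => ?_)
    · rcases h with h | ⟨m, x, hm, hx1, hx2, hx⟩
      · exact Or.inl (h.of_iso e.symm)
      · exact Or.inr ⟨m, x, hm, hx1, hx2, (hW.iso _ _ e).symm.trans hx⟩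
    · rcases h1 with h1 | ⟨m, x, hm, hx1, hx2, hx⟩
      · have : IsIso Δ.mor₂ := (Triangle.isZero₁_iff_isIso₂ _ hΔ).1 h1
        rcases h3 with h3 | ⟨m, x, hm, hx1, hx2, hx⟩
        · exact Or.inl (h3.of_iso (asIso Δ.mor₂))
        · exact Or.inr ⟨m, x, hm, hx1, hx2, (hW.iso _ _ (asIso Δ.mor₂)).trans hx⟩
      · rcases h3 with h3 | ⟨n, y, hn, hy1, hy2, hy⟩
        · refine Or.inr ⟨m, x, hm, hx1, hx2, ?_⟩
          rw [hW.add Δ hΔ, hW.zero h3, add_zero, hx]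
        · obtain ⟨l, z, hl, hz1, hz2, hz⟩ := sum_uv hab hm hn hx1 hx2 hy1 hy2
          refine Or.inr ⟨l, z, hl, hz1, hz2, ?_⟩
          rw [hW.add Δ hΔ, hx, hy, hz]
    · obtain ⟨m, hm, hx⟩ := hW.ph ψ X hX hX0
      exact Or.inr ⟨m, ψ, hm, hge a h1, hle b h2, hx⟩
  rcases key with h | h
  · exact absurd h hz
  · exact h

/-- The class of a nonzero object with phases in a half-open interval of length one. -/
lemma half_open {t : ℝ} {E : T} (h1 : σ.Gt t E) (h2 : σ.Le (t + 1) E) (hz : ¬ IsZero E) :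
    ∃ (m x : ℝ), 0 < m ∧ t < x ∧ x ≤ t + 1 ∧ W E = m * uv x := by
  obtain ⟨μ, hμ⟩ := σ.exists_isMin hz
  have h3 := hμ.ge
  obtain ⟨A', D, a, d, c, ht, hD, hDz, hA'⟩ := hμ
  have h4 : t < μ := h1.min_lt ht hD hDz hA'
  obtain ⟨m, x, hm, hx1, hx2, hx⟩ := hW.sector (show t + 1 - μ < 1 by linarith) h3 h2 hz
  exact ⟨m, x, hm, by linarith, hx2, hx⟩

/-- The class of a nonzero object with phases in an open interval of length one. -/
lemma opn {t : ℝ} {E : T} (h1 : σ.Gt t E) (h2 : σ.Lt (t + 1) E) (hz : ¬ IsZero E) :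
    ∃ (m x : ℝ), 0 < m ∧ t < x ∧ x < t + 1 ∧ W E = m * uv x := by
  obtain ⟨μ, hμ⟩ := σ.exists_isMin hz
  obtain ⟨ρ, hρ⟩ := σ.exists_isMax hz
  have h3 := hμ.ge
  have h3' := hρ.le
  obtain ⟨A', D, a, d, c, ht, hD, hDz, hA'⟩ := hμ
  obtain ⟨C, B', a', b', c', ht', hC, hCz, hB'⟩ := hρ
  have h4 : t < μ := h1.min_lt ht hD hDz hA'
  have h5 : ρ < t + 1 := h2.lt_max ht' hC hCz hB'
  obtain ⟨m, x, hm, hx1, hx2, hx⟩ := hW.sector (show ρ - μ < 1 by linarith) h3 h3' hz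
  exact ⟨m, x, hm, by linarith, by linarith, hx⟩

/-- An object with phases in `(t, t + 1]` and class on the line of phase `t` is semistable. -/
lemma flat {t : ℝ} {E : T} (h1 : σ.Gt t E) (h2 : σ.Le (t + 1) E)
    (him : ((starRingEnd ℂ) (uv t) * W E).im = 0) : σ.P (t + 1) E := by
  obtain ⟨A, B, a, b, c, ht, hA, hB⟩ := σ.exists_trunc' (t + 1) E
  have hA2 : σ.Le (t + 1) A := le_sub ht h2 (hB.le.mono (by linarith))
  have hAP : σ.P (t + 1) A := P_of_ge_le hA hA2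
  have hB2 : σ.Gt t B := gt_quot ht h1 (hA.gt (by linarith))
  by_cases hBz : IsZero B
  · have : IsIso a := (Triangle.isZero₃_iff_isIso₁ _ ht).1 hBz
    exact σ.iso _ _ _ ⟨asIso a⟩ hAP
  exfalso
  obtain ⟨m, x, hm, hx1, hx2, hx⟩ := hW.opn hB2 hB hBz
  have h3 : W E = W A + W B := hW.add _ ht
  have h4 : ((starRingEnd ℂ) (uv t) * W A).im = 0 := by
    by_cases hAz : IsZero A
    · rw [hW.zero hAz]; simp
    · obtain ⟨n, hn, hn'⟩ := hW.ph _ _ hAP hAz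
      rw [hn', im_conj_mul]
      have : Real.pi * (t + 1 - t) = Real.pi := by ring
      rw [this, Real.sin_pi, mul_zero]
  rw [h3, mul_add, Complex.add_im, h4, zero_add, hx, im_conj_mul] at him
  have h5 := sin_pi_pos (t := x - t) (by linarith) (by linarith)
  have := mul_pos hm h5
  linarith

end IsCharge

namespace Slicing

variable {σ : Slicing T}

/-- Semistable objects of fixed phase are closed under extensions. -/
lemma P_ext {φ : ℝ} {Δ : Triangle T} (hΔ : Δ ∈ distTriang T) (h1 : σ.P φ Δ.obj₁)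
    (h3 : σ.P φ Δ.obj₃) : σ.P φ Δ.obj₂ :=
  P_of_ge_le (Ge.ext hΔ (ge_of_P h1) (ge_of_P h3)) (Le.ext hΔ (le_of_P h1) (le_of_P h3))

/-- Simple objects of the category of semistable objects of given phase (stable objects). -/
def Simp (σ : Slicing T) (ψ : ℝ) (C : T) : Prop :=
  σ.P ψ C ∧ ¬ IsZero C ∧ ∀ X Y : T, IsTri X C Y → σ.P ψ X → σ.P ψ Y → IsZero X ∨ IsZero Y

lemma isZero_shift {X : T} (n : ℤ) : IsZero (X⟦n⟧) ↔ IsZero X := by
  constructor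
  · intro h
    exact isZero_of_obj' (shiftEquiv T n) h
  · intro h
    exact (shiftFunctor T n).map_isZero h
where
  isZero_of_obj' (Φ : T ≌ T) {C : T} (h0 : IsZero (Φ.functor.obj C)) : IsZero C := by
    rw [IsZero.iff_id_eq_zero] at h0 ⊢
    apply Φ.functor.map_injective
    rw [CategoryTheory.Functor.map_id, h0, Functor.map_zero]

lemma isTri_shift {X Y Z : T} (h : IsTri X Y Z) (n : ℤ) : IsTri (X⟦n⟧) (Y⟦n⟧) (Z⟦n⟧) := by
  obtain ⟨a, b, c, ht⟩ := h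
  have := Triangle.shift_distinguished _ ht n
  exact ⟨_, _, _, this⟩

lemma isTri_iso₂ {X Y Y' Z : T} (h : IsTri X Y Z) (e : Y ≅ Y') : IsTri X Y' Z := by
  obtain ⟨a, b, c, ht⟩ := h
  exact ⟨_, _, _, tri_iso₂ ht e⟩

lemma isTri_of_dist {Δ : Triangle T} (h : Δ ∈ distTriang T) : IsTri Δ.obj₁ Δ.obj₂ Δ.obj₃ :=
  ⟨Δ.mor₁, Δ.mor₂, Δ.mor₃, h⟩

lemma isTri_iso₁ {X X' Y Z : T} (h : IsTri X Y Z) (e : X ≅ X') : IsTri X' Y Z := by
  obtain ⟨a, b, c, ht⟩ := h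
  refine ⟨e.inv ≫ a, b, c ≫ e.hom⟦(1 : ℤ)⟧', isomorphic_distinguished _ ht _
    (Triangle.isoMk _ _ e.symm (Iso.refl _) (Iso.refl _) ?_ ?_ ?_)⟩
  · change (e.inv ≫ a) ≫ 𝟙 _ = e.inv ≫ a
    rw [Category.comp_id]
  · change b ≫ 𝟙 _ = 𝟙 _ ≫ b
    rw [Category.comp_id, Category.id_comp]
  · change (c ≫ e.hom⟦(1 : ℤ)⟧') ≫ e.inv⟦(1 : ℤ)⟧' = 𝟙 _ ≫ c
    rw [Category.assoc, ← Functor.map_comp, e.hom_inv_id, CategoryTheory.Functor.map_id,
      Category.comp_id, Category.id_comp]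

lemma isTri_iso₃ {X Y Z Z' : T} (h : IsTri X Y Z) (e : Z ≅ Z') : IsTri X Y Z' := by
  obtain ⟨a, b, c, ht⟩ := h
  refine ⟨a, b ≫ e.hom, e.inv ≫ c, isomorphic_distinguished _ ht _
    (Triangle.isoMk _ _ (Iso.refl _) (Iso.refl _) e.symm ?_ ?_ ?_)⟩
  · change a ≫ 𝟙 _ = 𝟙 _ ≫ a
    rw [Category.comp_id, Category.id_comp]
  · change (b ≫ e.hom) ≫ e.inv = 𝟙 _ ≫ b
    rw [Category.assoc, e.hom_inv_id, Category.comp_id, Category.id_comp]
  · change (e.inv ≫ c) ≫ (𝟙 X)⟦(1 : ℤ)⟧' = e.inv ≫ c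
    rw [CategoryTheory.Functor.map_id, Category.comp_id]

lemma Simp.shift {ψ : ℝ} {C : T} (h : σ.Simp ψ C) : σ.Simp (ψ + 1) (C⟦(1 : ℤ)⟧) := by
  refine ⟨(σ.shift _ _).2 h.1, fun h0 => h.2.1 ((isZero_shift 1).1 h0), fun X Y ht hX hY => ?_⟩
  have h1 := isTri_iso₂ (isTri_shift ht (-1)) ((shiftFunctorCompIsoId T 1 (-1) (by ring)).app C)
  have hX' : σ.P ψ (X⟦(-1 : ℤ)⟧) := by
    have := P_shift_neg hX 1
    simpa using this
  have hY' : σ.P ψ (Y⟦(-1 : ℤ)⟧) := by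
    have := P_shift_neg hY 1
    simpa using this
  rcases h.2.2 _ _ h1 hX' hY' with h2 | h2
  · exact Or.inl ((isZero_shift (-1)).1 h2)
  · exact Or.inr ((isZero_shift (-1)).1 h2)

lemma Simp.iso {ψ : ℝ} {C C' : T} (h : σ.Simp ψ C) (e : C ≅ C') : σ.Simp ψ C' :=
  ⟨σ.iso _ _ _ ⟨e⟩ h.1, fun h0 => h.2.1 (h0.of_iso e), fun X Y ht hX hY =>
    h.2.2 X Y (isTri_iso₂ ht e.symm) hX hY⟩

/-- **The cone of a nonzero morphism from a simple object.** -/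
theorem cone_simp {W : T → ℂ} (hW : IsCharge σ W) {ψ : ℝ} {C B : T} (hC : σ.Simp ψ C)
    (hB : σ.P ψ B) (g : C ⟶ B) (hg : g ≠ 0) : ∃ (X : T) (p : B ⟶ X) (q : X ⟶ C⟦(1 : ℤ)⟧),
      Triangle.mk g p q ∈ distTriang T ∧ σ.P ψ X := by
  obtain ⟨X, p, q, ht⟩ := distinguished_cocone_triangle g
  refine ⟨X, p, q, ht, ?_⟩
  have hC1 : σ.P (ψ + 1) (C⟦(1 : ℤ)⟧) := (σ.shift _ _).2 hC.1
  have hrot := rot_of_distTriang _ ht
  have hXge : σ.Ge ψ X := Ge.ext hrot (ge_of_P hB) ((ge_of_P hC1).mono (by linarith))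
  have hXle : σ.Le (ψ + 1) X := Le.ext hrot ((le_of_P hB).mono (by linarith)) (le_of_P hC1)
  obtain ⟨X₁, X₂, x₁, x₂, x₃, htX, hX₁, hX₂⟩ := σ.exists_trunc ψ X
  have hX₂P : σ.P ψ X₂ := P_of_ge_le (ge_quot htX hXge (hX₁.ge.mono (by linarith))) hX₂
  have hX₁le : σ.Le (ψ + 1) X₁ := le_sub htX hXle (hX₂.mono (by linarith))
  obtain ⟨Q, p', q', r, s, w, k1, k2, k3, k4⟩ := octa hrot (rot_of_distTriang _ htX)
  -- `Q` is a shift of the kernel of `B ⟶ X₂`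
  have hX₂1 : σ.P (ψ + 1) (X₂⟦(1 : ℤ)⟧) := (σ.shift _ _).2 hX₂P
  have hX₁1 : σ.Gt (ψ + 1) (X₁⟦(1 : ℤ)⟧) := hX₁.shift1
  have hB1 : σ.P (ψ + 1) (B⟦(1 : ℤ)⟧) := (σ.shift _ _).2 hB
  have hQge : σ.Ge (ψ + 1) Q := Ge.ext k2 (ge_of_P hC1) hX₁1.ge
  have hQle : σ.Le (ψ + 1) Q := Le.ext (rot_of_distTriang _ k1)
    ((le_of_P hX₂P).mono (by linarith)) (le_of_P hB1)
  have hQP : σ.P (ψ + 1) Q := P_of_ge_le hQge hQle
  have im0 : ∀ Y : T, σ.P (ψ + 1) Y → ((starRingEnd ℂ) (uv ψ) * W Y).im = 0 := by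
    intro Y hY
    by_cases hYz : IsZero Y
    · rw [hW.zero hYz]; simp
    · obtain ⟨n, hn, hn'⟩ := hW.ph _ _ hY hYz
      rw [hn', im_conj_mul]
      have : Real.pi * (ψ + 1 - ψ) = Real.pi := by ring
      rw [this, Real.sin_pi, mul_zero]
  have hX₁P : σ.P (ψ + 1) X₁ := by
    refine hW.flat hX₁ hX₁le ?_
    have h1 : W Q = W (C⟦(1 : ℤ)⟧) + W (X₁⟦(1 : ℤ)⟧) := hW.add _ k2
    rw [hW.shift X₁] at h1
    have h2 : W X₁ = W (C⟦(1 : ℤ)⟧) - W Q := by rw [h1]; ring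
    rw [h2, mul_sub, Complex.sub_im, im0 _ hC1, im0 _ hQP, sub_zero]
  -- the kernel
  have htri : IsTri X₁ (C⟦(1 : ℤ)⟧) Q :=
    isTri_iso₁ (isTri_of_dist (inv_rot_of_distTriang _ k2))
      ((shiftFunctorCompIsoId T 1 (-1) (by ring)).app X₁)
  rcases hC.shift.2.2 _ _ htri hX₁P hQP with h0 | h0
  · have : IsIso x₂ := (Triangle.isZero₁_iff_isIso₂ _ htX).1 h0
    exact σ.iso _ _ _ ⟨(asIso x₂).symm⟩ hX₂P
  · exfalso
    have hiso : IsIso (p ≫ x₂) := (Triangle.isZero₃_iff_isIso₁ _ k1).1 h0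
    apply hg
    rw [← cancel_mono (p ≫ x₂)]
    have h5 : g ≫ p = 0 := comp_distTriang_mor_zero₁₂ _ ht
    rw [← Category.assoc, h5, zero_comp, zero_comp]

end Slicing

end Pool.Agent.H934
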