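import Mathlib
import Pool.Agent.H934.CoreA

set_option autoImplicit false
set_option linter.unusedSectionVars false
set_option linter.unusedVariables false

open CategoryTheory CategoryTheory.Limits CategoryTheory.Pretriangulated ZeroObject

namespace Pool.Agent.H934

universe v u

section trig

lemma cos_7 : Real.cos (Real.pi * (7 / 3)) = 1 / 2 := by
  rw [show Real.pi * (7 / 3) = Real.pi / 3 + 2 * Real.pi by ring, Real.cos_add_two_pi,
    Real.cos_pi_div_three]

lemma sin_7 : Real.sin (Real.pi * (7 / 3)) = Real.sqrt 3 / 2 := by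
  rw [show Real.pi * (7 / 3) = Real.pi / 3 + 2 * Real.pi by ring, Real.sin_add_two_pi,
    Real.sin_pi_div_three]

lemma cos_5 : Real.cos (Real.pi * (5 / 3)) = 1 / 2 := by
  rw [show Real.pi * (5 / 3) = - (Real.pi / 3) + 2 * Real.pi by ring, Real.cos_add_two_pi,
    Real.cos_neg, Real.cos_pi_div_three]

lemma sin_5 : Real.sin (Real.pi * (5 / 3)) = - (Real.sqrt 3 / 2) := by
  rw [show Real.pi * (5 / 3) = - (Real.pi / 3) + 2 * Real.pi by ring, Real.sin_add_two_pi,
    Real.sin_neg, Real.sin_pi_div_three]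

end trig

variable {T : Type u} [Category.{v} T] [Preadditive T] [HasZeroObject T] [HasShift T ℤ]
  [∀ n : ℤ, (shiftFunctor T n).Additive] [Pretriangulated T] [IsTriangulated T] [Linear ℂ T]
  [∀ n : ℤ, (shiftFunctor T n).Linear ℂ]

variable {𝒮 : SerreFunctor T}

lemma nv_7 (hT : ExtFinite T) (D : NumData 𝒮 (7 / 3)) : NV D := by
  intro σ N a b X Y hX hY hX0 hY0 h1 h2
  refine D.exists_hom N hT cos_7 hX hY hX0 hY0 h2 (by linarith) ?_
  rw [sin_7]
  have h3 : Real.sin (Real.pi * (7 / 3 + (b - a))) < 0 := by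
    rw [show Real.pi * (7 / 3 + (b - a)) = Real.pi * (b - a - 5 / 3) + 2 * Real.pi + 2 * Real.pi
      by ring, Real.sin_add_two_pi, Real.sin_add_two_pi]
    exact sin_pi_neg (by linarith) (by linarith)
  have h4 : 0 < Real.sqrt 3 / 2 := by positivity
  exact mul_neg_of_neg_of_pos h3 h4

lemma nv_5' (hT : ExtFinite T) (D : NumData 𝒮 (5 / 3)) {σ : Slicing T} (N : IsNorm D σ) {a b : ℝ}
    {X Y : T} (hX : σ.P a X) (hY : σ.P b Y) (hX0 : ¬ IsZero X) (hY0 : ¬ IsZero Y)
    (h1 : 1 / 3 < b - a) (h2 : b - a ≤ 1) : ∃ f : X ⟶ Y, f ≠ 0 := by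
  refine D.exists_hom N hT cos_5 hX hY hX0 hY0 h2 (by linarith) ?_
  rw [sin_5]
  have h3 : 0 < Real.sin (Real.pi * (5 / 3 + (b - a))) := by
    rw [show Real.pi * (5 / 3 + (b - a)) = Real.pi * (b - a - 1 / 3) + 2 * Real.pi
      by ring, Real.sin_add_two_pi]
    exact sin_pi_pos (by linarith) (by linarith)
  have h4 : - (Real.sqrt 3 / 2) < 0 := by
    have : 0 < Real.sqrt 3 / 2 := by positivity
    linarith
  exact mul_neg_of_pos_of_neg h3 h4

lemma nv_5 (hT : ExtFinite T) (D : NumData 𝒮 (5 / 3)) : NV D :=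
  fun σ N a b X Y hX hY hX0 hY0 h1 h2 => nv_5' hT D N hX hY hX0 hY0 (by linarith) h2

/-- Every Serre-invariant stability condition can be normalised. -/
theorem normalise {k : ℤ} (hT : FracCY T 𝒮 k) (hk3 : ¬ (3 : ℤ) ∣ k) {s : ℝ} (hs : 3 * s = k)
    (D : NumData 𝒮 s) (σ : StabCond T) (hσ : SerreInvariant 𝒮 σ) :
    ∃ H : GLTilde, (∀ E, σ.Z (ncl E) = H.g (D.Z E)) ∧ IsNorm D (σ.toSlicing.reparam H) := by
  obtain ⟨G, hG1, hG2⟩ := hσ
  obtain ⟨L, hL⟩ := D.lin σ.Z
  obtain ⟨X, hX⟩ := D.ref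
  have him : (uv s).im ≠ 0 := by
    intro h0
    have := D.hκ
    rw [h0, mul_zero] at this
    norm_num at this
  -- real coordinates with respect to `1` and `uv s`
  have coord : ∀ z : ℂ, ∃ a b : ℝ, z = a + b * uv s := by
    intro z
    refine ⟨z.re - z.im / (uv s).im * (uv s).re, z.im / (uv s).im, ?_⟩
    apply Complex.ext
    · simp only [Complex.add_re, Complex.ofReal_re, Complex.mul_re, Complex.ofReal_im]
      ring
    · simp only [Complex.add_im, Complex.ofReal_im, Complex.mul_im, Complex.ofReal_re]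
      field_simp
      ring
  have lin1 : ∀ (M : ℂ →ₗ[ℝ] ℂ) (a : ℝ) (z : ℂ), M ((a : ℂ) * z) = a * M z := by
    intro M a z
    rw [← Complex.real_smul, map_smul, Complex.real_smul]
  have hLG : ∀ z : ℂ, L (uv s * z) = G.g (L z) := by
    have h1 : ∀ E, L (uv s * D.Z E) = G.g (L (D.Z E)) := by
      intro E
      rw [← D.serre, ← hL, ← hL, hG1]
    intro z
    obtain ⟨a, b, rfl⟩ := coord z
    have h2 := h1 X
    have h3 := h1 (𝒮.o X)
    rw [D.serre] at h3
    rw [hX, mul_one] at h2 h3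
    have e1 : uv s * ((a : ℂ) + b * uv s) = (a : ℂ) * uv s + (b : ℂ) * (uv s * uv s) := by ring
    have e2 : ((a : ℂ) + b * uv s) = (a : ℂ) * 1 + (b : ℂ) * uv s := by ring
    rw [e1, e2, map_add, lin1, lin1, map_add, lin1, lin1, map_add, G.g_smul, G.g_smul, ← h2, ← h3]
  have hXz : ¬ IsZero X := by
    intro h0
    rw [D.Z_zero h0] at hX
    exact zero_ne_one hX
  obtain ⟨ρ, C, B, a', b', c', ht', hC, hCz, hB⟩ := σ.toSlicing.exists_max hXz
  obtain ⟨mC, hmC, hZC⟩ := σ.phase ρ C hC hCz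
  have hZC' : σ.Z (ncl C) = mC * uv ρ := hZC
  have hinj : Function.Injective L := by
    rw [injective_iff_map_eq_zero]
    intro z hz
    by_contra hz0
    have h1 : L (uv s * z) = 0 := by rw [hLG, hz, map_zero]
    have h2 : L (D.Z C) = 0 := by
      obtain ⟨a, b, hab⟩ := coord (D.Z C / z)
      have h3 : D.Z C = (a : ℂ) * z + (b : ℂ) * (uv s * z) := by
        have : D.Z C = (D.Z C / z) * z := by field_simp
        rw [this, hab]; ring
      rw [h3, map_add, lin1, lin1, hz, h1]; ring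
    rw [← hL, hZC'] at h2
    rcases mul_eq_zero.1 h2 with h4 | h4
    · exact hmC.ne' (by exact_mod_cast h4)
    · exact uv_ne_zero _ h4
  let Le : ℂ ≃ₗ[ℝ] ℂ := LinearEquiv.ofInjectiveEndo L hinj
  have hLe : ∀ z, Le z = L z := fun z => rfl
  -- the third power of the phase map
  have hf3 : G.f (G.f (G.f ρ)) = ρ + k := by
    have h1 := (hG2 _ _).1 ((hG2 _ _).1 ((hG2 _ _).1 hC))
    obtain ⟨e⟩ := hT.cy C
    have h2 := σ.toSlicing.iso _ _ _ ⟨e⟩ h1
    have h3 : σ.P (G.f (G.f (G.f ρ)) - k) C := by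
      have h4 : G.f (G.f (G.f ρ)) = (G.f (G.f (G.f ρ)) - k) + k := by ring
      rw [h4] at h2
      exact (Slicing.P_shift_iff k).1 h2
    have h5 := Slicing.phase_unique hC h3 hCz
    linarith
  -- consequences for a lift conjugating `G` to a rotation
  have conj3 : ∀ (H : GLTilde) (t : ℝ), (∀ z, H.g.symm (G.g (H.g z)) = uv t * z) →
      ∃ n : ℤ, 3 * (t + 2 * n) = k ∧ ∀ x, G.f (H.f x) = H.f (x + t + 2 * n) := by
    intro H t hH
    have h1 : ∀ z, ((H.inv.comp G).comp H).g z = uv t * z := fun z => hH z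
    obtain ⟨n, hn⟩ := GLTilde.f_of_rot _ t h1
    have hn' : ∀ x, H.inv.f (G.f (H.f x)) = x + t + 2 * n := hn
    have h2 : ∀ x, G.f (H.f x) = H.f (x + t + 2 * n) := by
      intro x
      rw [← hn', H.f_inv]
    refine ⟨n, ?_, h2⟩
    have h3 := h2 (H.inv.f ρ)
    rw [H.f_inv] at h3
    rw [h3, h2, h2] at hf3
    have h4 : H.f (H.inv.f ρ + (k : ℤ)) = ρ + k := by rw [H.per_int, H.f_inv]
    rw [← h4] at hf3
    have h5 := H.mono.injective hf3
    linarith
  have hks : (k : ℝ) = 3 * s := hs.symm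
  by_cases hdet : 0 < LinearMap.det (Le : ℂ →ₗ[ℝ] ℂ)
  · obtain ⟨H, hH⟩ := GLTilde.exists_lift Le hdet
    have h1 : ∀ z, H.g.symm (G.g (H.g z)) = uv s * z := by
      intro z
      rw [LinearEquiv.symm_apply_eq, hH, hLe, hLe, hLG]
    obtain ⟨n, hn1, hn2⟩ := conj3 H s h1
    have hn0 : (n : ℝ) = 0 := by linarith
    have hn3 : ∀ x, G.f (H.f x) = H.f (x + s) := by
      intro x; rw [hn2, hn0]; congr 1; ring
    refine ⟨H, fun E => by rw [hH, hLe, hL], ⟨?_, ?_⟩⟩
    · intro φ E hE hz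
      obtain ⟨m, hm, hZ⟩ := σ.phase _ E hE hz
      obtain ⟨m', hm', h2⟩ := H.compat' φ
      have hZ' : σ.Z (ncl E) = m * uv (H.f φ) := hZ
      refine ⟨m / m', div_pos hm hm', ?_⟩
      apply H.g.injective
      rw [GLTilde.g_smul, h2, hH, hLe, ← hL, hZ']
      have : (m' : ℂ) ≠ 0 := by exact_mod_cast hm'.ne'
      push_cast
      field_simp
    · intro φ E
      change σ.P (H.f φ) E ↔ σ.P (H.f (φ + s)) (𝒮.S.functor.obj E)
      rw [← hn3]
      exact hG2 _ _
  · exfalso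
    -- compose with complex conjugation
    let cj : ℂ ≃ₗ[ℝ] ℂ := Complex.conjAe.toLinearEquiv
    have hcj : ∀ z, cj z = (starRingEnd ℂ) z := fun z => rfl
    let Le' : ℂ ≃ₗ[ℝ] ℂ := cj.trans Le
    have hLe' : ∀ z, Le' z = L ((starRingEnd ℂ) z) := fun z => rfl
    have hdet' : 0 < LinearMap.det (Le' : ℂ →ₗ[ℝ] ℂ) := by
      have h1 : LinearMap.det (Le' : ℂ →ₗ[ℝ] ℂ) = - LinearMap.det (Le : ℂ →ₗ[ℝ] ℂ) := by
        rw [det_eq_area, det_eq_area]
        change area (L ((starRingEnd ℂ) 1)) (L ((starRingEnd ℂ) Complex.I)) =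
          - area (L 1) (L Complex.I)
        rw [map_one, Complex.conj_I, map_neg]
        simp only [area, Complex.neg_re, Complex.neg_im]
        ring
      rw [h1]
      have h2 : LinearMap.det (Le : ℂ →ₗ[ℝ] ℂ) ≠ 0 := by
        exact (LinearEquiv.isUnit_det' Le).ne_zero
      have h3 : LinearMap.det (Le : ℂ →ₗ[ℝ] ℂ) ≤ 0 := not_lt.1 hdet
      have := lt_of_le_of_ne h3 h2
      linarith
    obtain ⟨H, hH⟩ := GLTilde.exists_lift Le' hdet'
    have hconj : (starRingEnd ℂ) (uv (-s)) = uv s := by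
      unfold uv
      rw [← Complex.exp_conj]
      congr 1
      simp
    have h1 : ∀ z, H.g.symm (G.g (H.g z)) = uv (-s) * z := by
      intro z
      rw [LinearEquiv.symm_apply_eq, hH, hLe', hLe', ← hLG, map_mul (starRingEnd ℂ), hconj]
    obtain ⟨n, hn1, hn2⟩ := conj3 H (-s) h1
    apply hk3
    refine ⟨n, ?_⟩
    have h3 : (k : ℝ) = 3 * n := by linarith
    exact_mod_cast h3

/-- **Serre-invariant stability conditions form one orbit.** -/
theorem same_orbit {k : ℤ} (hT : FracCY T 𝒮 k) (hk : k = 5 ∨ k = 7) (σ τ : StabCond T)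
    (hσ : SerreInvariant 𝒮 σ) (hτ : SerreInvariant 𝒮 τ) : SameOrbit σ τ := by
  have hodd : Odd k := by rcases hk with rfl | rfl <;> decide
  have hk3 : ¬ (3 : ℤ) ∣ k := by rcases hk with rfl | rfl <;> decide
  -- an object with nonzero class
  obtain ⟨X, hX⟩ : ∃ X : T, ncl X ≠ 0 := by
    by_contra hc
    push Not at hc
    have h1 : ∀ x : Num T, x = 0 := by
      rintro ⟨x, hx⟩
      apply Subtype.ext
      refine AddSubgroup.closure_induction (p := fun x _ => x = 0) ?_ rfl ?_ ?_ hx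
      · rintro _ ⟨E, rfl⟩
        exact congrArg Subtype.val (hc E)
      · intro x y _ _ h1 h2; rw [h1, h2, add_zero]
      · intro x _ h1; rw [h1, neg_zero]
    have h2 : Subsingleton (Num T) := ⟨fun a b => by rw [h1 a, h1 b]⟩
    have h3 := hT.rank
    rw [Module.finrank_zero_of_subsingleton] at h3
    omega
  have main : ∀ (s : ℝ) (hs : 3 * s = k) (D : NumData 𝒮 s) (hNV : NV D), SameOrbit σ τ := by
    intro s hs D hNV
    obtain ⟨H₁, hZ₁, N₁⟩ := normalise hT hk3 hs D σ hσ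
    obtain ⟨H₂, hZ₂, N₂⟩ := normalise hT hk3 hs D τ hτ
    have hXz : ¬ IsZero X := by
      intro h0
      apply hX
      rw [ncl_eq_zero_iff]
      intro F
      have h1 := D.chi F X
      rw [D.Z_zero h0] at h1
      simp at h1
      exact_mod_cast h1
    obtain ⟨i, hi⟩ := norm_unique D hNV hs hk3 N₂ N₁ hXz
    -- the element of the group
    refine ⟨H₁.comp ((GLTilde.trans i).comp H₂.inv), ?_, ?_⟩
    · have h1 : ∀ E : T, τ.Z (ncl E) =
          (H₁.comp ((GLTilde.trans i).comp H₂.inv)).g.symm (σ.Z (ncl E)) := by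
        intro E
        rw [LinearEquiv.eq_symm_apply, hZ₁, hZ₂]
        change H₁.g (H₂.g.symm (H₂.g (D.Z E))) = H₁.g (D.Z E)
        rw [LinearEquiv.symm_apply_apply]
      rintro ⟨v, hv⟩
      have key : ∀ (v : T → ℤ) (hv : v ∈ Num T), τ.Z ⟨v, hv⟩ =
          (H₁.comp ((GLTilde.trans i).comp H₂.inv)).g.symm (σ.Z ⟨v, hv⟩) := by
        intro v hv
        refine AddSubgroup.closure_induction (p := fun v hv => τ.Z ⟨v, hv⟩ =
          (H₁.comp ((GLTilde.trans i).comp H₂.inv)).g.symm (σ.Z ⟨v, hv⟩)) ?_ ?_ ?_ ?_ hv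
        · rintro _ ⟨E, rfl⟩
          exact h1 E
        · have e0 : (⟨0, AddSubgroup.zero_mem _⟩ : Num T) = 0 := rfl
          rw [e0, map_zero, map_zero, map_zero]
        · intro x y hx hy h2 h3
          have e0 : (⟨x + y, AddSubgroup.add_mem _ hx hy⟩ : Num T) = ⟨x, hx⟩ + ⟨y, hy⟩ := rfl
          rw [e0, map_add, map_add, map_add, h2, h3]
        · intro x hx h2
          have e0 : (⟨-x, AddSubgroup.neg_mem _ hx⟩ : Num T) = -⟨x, hx⟩ := rfl
          rw [e0, map_neg, map_neg, map_neg, h2]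
      exact key v hv
    · intro φ E
      have h1 : τ.P φ E ↔ τ.P (H₂.f (H₂.inv.f φ)) E := by rw [H₂.f_inv]
      rw [h1]
      exact hi (H₂.inv.f φ) E
  rcases hk with rfl | rfl
  · obtain ⟨D, -, -⟩ := exists_numData hT hodd hX (s := 5 / 3) (by rw [uv_re, cos_5])
      (by rw [uv_im, sin_5]; ring_nf; rw [Real.sq_sqrt (by norm_num)]; norm_num)
    exact main (5 / 3) (by norm_num) D (nv_5 hT.ext D)
  · obtain ⟨D, -, -⟩ := exists_numData hT hodd hX (s := 7 / 3) (by rw [uv_re, cos_7])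
      (by rw [uv_im, sin_7]; ring_nf; rw [Real.sq_sqrt (by norm_num)]; norm_num)
    exact main (7 / 3) (by norm_num) D (nv_7 hT.ext D)

/-- The orbit of a Serre-invariant stability condition consists of such. -/
theorem serreInvariant_of_sameOrbit {σ τ : StabCond T} (hσ : SerreInvariant 𝒮 σ)
    (h : SameOrbit σ τ) : SerreInvariant 𝒮 τ := by
  obtain ⟨G, hG1, hG2⟩ := hσ
  obtain ⟨H, hH1, hH2⟩ := h
  refine ⟨H.inv.comp (G.comp H), fun E => ?_, fun φ E => ?_⟩
  · rw [hH1, hH1, hG1]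
    change _ = H.g.symm (G.g (H.g (H.g.symm (σ.Z (ncl E)))))
    rw [LinearEquiv.apply_symm_apply]
  · rw [hH2, hH2, hG2]
    change _ ↔ σ.P (H.f (H.inv.f (G.f (H.f φ)))) _
    rw [H.f_inv]

end Pool.Agent.H934
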