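import Mathlib
import Pool.Agent.H934.Normalise

set_option autoImplicit false
set_option linter.unusedSectionVars false
set_option linter.unusedVariables false

open CategoryTheory CategoryTheory.Limits CategoryTheory.Pretriangulated ZeroObject

namespace Pool.Agent.H934

universe v u

variable {T : Type u} [Category.{v} T] [Preadditive T] [HasZeroObject T] [HasShift T ℤ]
  [∀ n : ℤ, (shiftFunctor T n).Additive] [Pretriangulated T] [IsTriangulated T] [Linear ℂ T]
  [∀ n : ℤ, (shiftFunctor T n).Linear ℂ]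

variable {𝒮 : SerreFunctor T}

open Slicing

section tri

variable (hT : ExtFinite T) (D : NumData 𝒮 (5 / 3)) {σ : Slicing T} (N : IsNorm D σ)
  {A E B : T} {a : A ⟶ E} {b : E ⟶ B} {c : B ⟶ A⟦(1 : ℤ)⟧}
  (ht : Triangle.mk a b c ∈ distTriang T) (hAB : ∀ f : A ⟶ B, f = 0) {φ : ℝ} (hE : σ.P φ E)

include hT N ht hAB hE

/-- Phases of the first object of a triangle without morphisms from the first to the third
object. -/
lemma le_of_tri : σ.Le φ A := by
  by_cases hAz : IsZero A
  · exact le_of_isZero hAz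
  by_cases hBz : IsZero B
  · have : IsIso a := (Triangle.isZero₃_iff_isIso₁ _ ht).1 hBz
    exact (le_of_P hE).iso (asIso a).symm
  obtain ⟨ρ, hρ⟩ := σ.exists_isMax hAz
  obtain ⟨ρB, hρB⟩ := σ.exists_isMax hBz
  have hAle := hρ.le
  have hBle := hρB.le
  obtain ⟨C, A'', i, j, c', ht', hC, hCz, hA''⟩ := hρ
  obtain ⟨CB, B'', i₂, j₂, e₂, ht₂, hCB, hCBz, hB''⟩ := hρB
  rcases le_or_gt ρ φ with h | h
  · exact hAle.mono h
  exfalso
  have hi : i ≠ 0 := mor₁_ne_zero ht' hCz (fun g => hA''.shiftm1 ρ (by linarith) C hC g)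
  have hi₂ : i₂ ≠ 0 := mor₁_ne_zero ht₂ hCBz (fun g => hB''.shiftm1 ρB (by linarith) CB hCB g)
  have h1 : ρ ≤ ρB - 1 := by
    by_contra hc
    push Not at hc
    have h2 : i ≫ a = 0 := σ.hom ρ φ C E h hC hE _
    obtain ⟨g, hg⟩ := fac (inv_rot_of_distTriang _ ht) i h2
    have hg0 : g = 0 := hBle.shiftm1 ρ (by linarith) C hC g
    apply hi
    rw [← hg, hg0, zero_comp]
    rfl
  have h2 : ρB - 1 ≤ ρ := by
    by_contra hc
    push Not at hc
    have h3 : i₂ ≫ c = 0 := hAle.shift1 ρB (by linarith) CB hCB _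
    obtain ⟨g, hg⟩ := fac₃ ht i₂ h3
    have hg0 : g = 0 := σ.hom ρB φ CB E (by linarith) hCB hE g
    apply hi₂
    rw [← hg, hg0, zero_comp]
  obtain ⟨e, he⟩ := nv_5' hT D N hC hCB hCz hCBz (by linarith) (by linarith)
  obtain ⟨e', he'⟩ := extend ht' e (fun g => serre_zero 𝒮 (fun h => by
    have h5 : σ.Lt (ρ - 1 + 5 / 3) (𝒮.o (A''⟦(-1 : ℤ)⟧)) := Lt.map N.ser hA''.shiftm1
    exact h5 ρB (by linarith) CB hCB h) g)
  have h3 : e ≫ i₂ = 0 := by
    rw [← he', Category.assoc, hAB (e' ≫ i₂), comp_zero]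
  obtain ⟨g, hg⟩ := fac (inv_rot_of_distTriang _ ht₂) e h3
  have hg0 : g = 0 := hB''.shiftm1 ρ (by linarith) C hC g
  apply he
  rw [← hg, hg0, zero_comp]
  rfl

/-- Phases of the third object of a triangle without morphisms from the first to the third
object. -/
lemma ge_of_tri : σ.Ge φ B := by
  by_cases hBz : IsZero B
  · exact ge_of_isZero hBz
  by_cases hAz : IsZero A
  · have : IsIso b := (Triangle.isZero₁_iff_isIso₂ _ ht).1 hAz
    exact (ge_of_P hE).iso (asIso b)
  obtain ⟨μ, hμ⟩ := σ.exists_isMin hBz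
  obtain ⟨αm, hαm⟩ := σ.exists_isMin hAz
  have hBge := hμ.ge
  have hAge := hαm.ge
  obtain ⟨B', DB, b', d, c', ht', hDB, hDBz, hB'⟩ := hμ
  obtain ⟨A', DA, a', d', c'', ht₂, hDA, hDAz, hA'⟩ := hαm
  rcases le_or_gt φ μ with h | h
  · exact hBge.mono h
  exfalso
  have hd : d ≠ 0 := mor₂_ne_zero ht' hDBz (fun g => hB'.shift1 μ (by linarith) DB hDB g)
  have hd' : d' ≠ 0 := mor₂_ne_zero ht₂ hDAz (fun g => hA'.shift1 αm (by linarith) DA hDA g)
  have h1 : αm + 1 ≤ μ := by
    by_contra hc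
    push Not at hc
    have h2 : b ≫ d = 0 := σ.hom φ μ E DB h hE hDB _
    obtain ⟨g, hg⟩ := desc₃ ht d h2
    have hg0 : g = 0 := hAge.shift1 μ (by linarith) DB hDB g
    apply hd
    rw [← hg, hg0, comp_zero]
  have h2 : μ ≤ αm + 1 := by
    by_contra hc
    push Not at hc
    have h3 : (Triangle.mk a b c).invRotate.mor₁ ≫ d' = 0 :=
      hBge.shiftm1 αm (by linarith) DA hDA _
    obtain ⟨g, hg⟩ := Triangle.yoneda_exact₂ _ (inv_rot_of_distTriang _ ht) d' h3
    have hg0 : g = 0 := σ.hom φ αm E DA (by linarith) hE hDA g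
    apply hd'
    rw [hg, hg0, comp_zero]
    rfl
  obtain ⟨e, he⟩ := nv_5' hT D N hDA hDB hDAz hDBz (by linarith) (by linarith)
  obtain ⟨e', he'⟩ := Slicing.lift ht' e (fun g => serre_zero 𝒮 (fun h => by
    have h5 : σ.P (αm + 5 / 3) (𝒮.o DA) := (N.ser αm DA).1 hDA
    exact hB'.shift1 _ (by linarith) _ h5 h) g)
  have h3 : d' ≫ e = 0 := by
    rw [← he', ← Category.assoc, hAB (d' ≫ e'), zero_comp]
  obtain ⟨g, hg⟩ := desc₃ ht₂ e h3
  have hg0 : g = 0 := hA'.shift1 μ (by linarith) DB hDB g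
  apply he
  rw [← hg, hg0, comp_zero]

/-- Bounds for the phases of the first object. -/
lemma ge_of_tri' : σ.Ge (φ - 1) A :=
  ge_sub ht ((ge_of_P hE).mono (by linarith)) (by
    rw [sub_add_cancel]; exact ge_of_tri hT D N ht hAB hE)

lemma le_of_tri' : σ.Le (φ + 1) B :=
  le_quot ht ((le_of_P hE).mono (by linarith)) (by
    rw [add_sub_cancel_right]; exact le_of_tri hT D N ht hAB hE)

end tri

/-- The imaginary part of the class of an object with phases in `[φ - 1, φ]`. -/
lemma im_nonpos {s : ℝ} (D : NumData 𝒮 s) {σ : Slicing T} (N : IsNorm D σ) {φ : ℝ} {A : T}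
    (h1 : σ.Ge (φ - 1) A) (h2 : σ.Le φ A) : ((starRingEnd ℂ) (uv φ) * D.Z A).im ≤ 0 := by
  refine σ.ind (E := A) (p := fun X => ((starRingEnd ℂ) (uv φ) * D.Z X).im ≤ 0)
      (fun Z hZ => by rw [D.Z_zero hZ]; simp) (fun X Y e h => by rw [← D.iso _ _ e]; exact h)
      (fun Δ hΔ h1 h3 => ?_) (fun ψ X hX hX0 hge _ hle _ => ?_)
  · rw [D.add Δ hΔ, mul_add, Complex.add_im]
    linarith
  · obtain ⟨m, hm, hx⟩ := N.ph ψ X hX hX0
    have hconj : (starRingEnd ℂ) (uv φ) = uv (-φ) := by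
      unfold uv
      rw [← Complex.exp_conj]
      congr 1
      simp
    have h3 : (starRingEnd ℂ) (uv φ) * D.Z X = (m : ℂ) * uv (-φ + ψ) := by
      rw [hx, hconj, uv_add]; ring
    rw [h3, Complex.im_ofReal_mul, uv_im]
    have h4 := hge _ h1
    have h5 := hle _ h2
    have h6 := sin_pi_nonneg (t := φ - ψ) (by linarith) (by linarith)
    have h7 : Real.sin (Real.pi * (-φ + ψ)) = - Real.sin (Real.pi * (φ - ψ)) := by
      rw [← Real.sin_neg]; congr 1; ring
    rw [h7]
    nlinarith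

/-- The dichotomy for the classes of the first object of a triangle. -/
theorem dichotomy (hT : ExtFinite T) (D : NumData 𝒮 (5 / 3)) (hq : D.q = 1) {σ : Slicing T}
    (N : IsNorm D σ) {A E B : T} {a : A ⟶ E} {b : E ⟶ B} {c : B ⟶ A⟦(1 : ℤ)⟧}
    (ht : Triangle.mk a b c ∈ distTriang T) (hAB : ∀ i : ℤ, i ≤ 0 → ∀ f : A ⟶ B⟦i⟧, f = 0)
    {φ : ℝ} (hE : σ.P φ E) (hZE : D.Z E = uv φ) : D.Z A = 0 ∨ D.Z A = D.Z E := by
  have hAB0 : ∀ f : A ⟶ B, f = 0 := by
    intro f
    have h := hAB 0 le_rfl (f ≫ ((shiftFunctorZero T ℤ).app B).inv)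
    rw [← cancel_mono ((shiftFunctorZero T ℤ).app B).inv, h, zero_comp]
  have hA1 := ge_of_tri' hT D N ht hAB0 hE
  have hA2 := le_of_tri hT D N ht hAB0 hE
  have hB1 := ge_of_tri hT D N ht hAB0 hE
  have hchi : eul A B ≤ 0 := by
    refine eul_nonpos hT (fun i hi f => ?_)
    rcases le_or_gt i 0 with h | h
    · exact hAB i h f
    · have hi2 : 2 ≤ i := by
        obtain ⟨t, rfl⟩ := hi; omega
      have hi3 : (2 : ℝ) ≤ i := by exact_mod_cast hi2
      refine serre_zero 𝒮 (fun g => ?_) f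
      exact hom_zero (σ := σ) (s := φ + 5 / 3) (t := φ + i) (by linarith) (hB1.shift i)
        (Le.map N.ser hA2) g
  have hadd : D.Z E = D.Z A + D.Z B := D.add _ ht
  have him := im_nonpos D N hA1 hA2
  -- the rotated class
  set z : ℂ := (starRingEnd ℂ) (uv φ) * D.Z A with hz
  have huu : (starRingEnd ℂ) (uv φ) * uv φ = 1 := by
    have hconj : (starRingEnd ℂ) (uv φ) = uv (-φ) := by
      unfold uv
      rw [← Complex.exp_conj]
      congr 1
      simp
    rw [hconj, ← uv_add, neg_add_cancel, uv_zero]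
  have hZA : D.Z A = z * uv φ := by
    rw [hz]; linear_combination (- D.Z A) * huu
  have hZB : D.Z B = (1 - z) * uv φ := by
    have : D.Z B = D.Z E - D.Z A := by rw [hadd]; ring
    rw [this, hZE, hZA]; ring
  have h1 : (starRingEnd ℂ) (D.Z A) * D.Z B = (starRingEnd ℂ) z * (1 - z) := by
    rw [hZA, hZB, map_mul]; linear_combination ((starRingEnd ℂ) z * (1 - z)) * huu
  have h2 : (starRingEnd ℂ) (D.Z A) * D.Z A = (starRingEnd ℂ) z * z := by
    rw [hZA, map_mul]; linear_combination ((starRingEnd ℂ) z * z) * huu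
  have hκ := D.hκ
  rw [uv_im, sin_5] at hκ
  have e1 := D.chi A B
  have e2 := D.chi A A
  rw [h1, hq] at e1
  rw [h2, hq] at e2
  simp only [Complex.mul_re, Complex.mul_im, Complex.conj_re, Complex.conj_im, Complex.sub_re,
    Complex.sub_im, Complex.one_re, Complex.one_im] at e1 e2
  have e3 : (eul A B : ℝ) ≤ 0 := by exact_mod_cast hchi
  have hs3 : 0 < Real.sqrt 3 := by positivity
  have hκneg : D.κ < 0 := by
    by_contra hc
    push Not at hc
    have : D.κ * -(Real.sqrt 3 / 2) ≤ 0 := by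
      apply mul_nonpos_of_nonneg_of_nonpos hc
      linarith
    linarith
  have e4 : D.κ * z.im ≥ 0 := by
    nlinarith
  -- the norm is an integer at most the real part
  have e5 : z.re * z.re + z.im * z.im ≤ z.re := by
    nlinarith
  have e6 : (-(eul A A) : ℝ) = z.re * z.re + z.im * z.im := by
    rw [e2]; ring
  obtain ⟨n, hn⟩ : ∃ n : ℤ, n = - eul A A := ⟨_, rfl⟩
  have hnR : (n : ℝ) = z.re * z.re + z.im * z.im := by
    rw [← e6, hn]; push_cast; ring
  have hx1 : z.re ≤ 1 := by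
    by_contra hc
    push Not at hc
    nlinarith [mul_self_nonneg z.im]
  have hn1 : n ≤ 1 := by
    have : (n : ℝ) ≤ 1 := by linarith
    exact_mod_cast this
  have hn0 : 0 ≤ n := by
    have : (0 : ℝ) ≤ n := by
      rw [hnR]; exact add_nonneg (mul_self_nonneg _) (mul_self_nonneg _)
    exact_mod_cast this
  have hcases : n = 0 ∨ n = 1 := by omega
  rcases hcases with h0 | h0
  · left
    rw [h0] at hnR
    have hre : z.re = 0 := by
      push_cast at hnR
      nlinarith [mul_self_nonneg z.re, mul_self_nonneg z.im]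
    have him' : z.im = 0 := by
      push_cast at hnR
      nlinarith [mul_self_nonneg z.re, mul_self_nonneg z.im]
    have : z = 0 := Complex.ext hre him'
    rw [hZA, this, zero_mul]
  · right
    rw [h0] at hnR
    push_cast at hnR
    have hre : z.re = 1 := by linarith
    have him' : z.im = 0 := by
      rw [hre] at hnR
      nlinarith [mul_self_nonneg z.im]
    have : z = 1 := Complex.ext hre him'
    rw [hZA, this, one_mul, hZE]

end Pool.Agent.H934
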