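import Mathlib
import Pool.Agent.H934.Charge

set_option autoImplicit false
set_option linter.unusedSectionVars false
set_option linter.unusedVariables false

open CategoryTheory CategoryTheory.Limits CategoryTheory.Pretriangulated ZeroObject

namespace Pool.Agent.H934

universe v u

variable {T : Type u} [Category.{v} T] [Preadditive T] [HasZeroObject T] [HasShift T ℤ]
  [∀ n : ℤ, (shiftFunctor T n).Additive] [Pretriangulated T] [IsTriangulated T]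

open Slicing

namespace IsCharge

variable {σ : Slicing T} {W : T → ℂ} (hW : IsCharge σ W)

include hW

lemma eq_norm {ψ : ℝ} {X : T} (hX : σ.P ψ X) : W X = (‖W X‖ : ℂ) * uv ψ := by
  by_cases hz : IsZero X
  · rw [hW.zero hz]; simp
  · obtain ⟨m, hm, h⟩ := hW.ph _ _ hX hz
    have h1 : ‖uv ψ‖ = 1 := by
      unfold uv
      have : ((Real.pi : ℂ) * (ψ : ℂ)) = ((Real.pi * ψ : ℝ) : ℂ) := by push_cast; rfl
      rw [this, Complex.norm_exp_ofReal_mul_I]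
    have h2 : ‖W X‖ = m := by
      rw [h, norm_mul, h1, mul_one, Complex.norm_of_nonneg hm.le]
    rw [h2, h]

lemma norm_add {ψ : ℝ} {Δ : Triangle T} (hΔ : Δ ∈ distTriang T) (h1 : σ.P ψ Δ.obj₁)
    (h3 : σ.P ψ Δ.obj₃) : ‖W Δ.obj₂‖ = ‖W Δ.obj₁‖ + ‖W Δ.obj₃‖ := by
  have e := hW.add Δ hΔ
  rw [hW.eq_norm h1, hW.eq_norm h3, hW.eq_norm (P_ext hΔ h1 h3), ← add_mul] at e
  have := mul_right_cancel₀ (uv_ne_zero ψ) e
  exact_mod_cast this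

lemma shift_neg (X : T) : W (X⟦(-1 : ℤ)⟧) = - W X := by
  have h1 := hW.shift (X⟦(-1 : ℤ)⟧)
  have h2 : W ((X⟦(-1 : ℤ)⟧)⟦(1 : ℤ)⟧) = W X :=
    hW.iso _ _ ((shiftFunctorCompIsoId T (-1) 1 (by ring)).app X)
  rw [h2] at h1
  rw [h1, neg_neg]

variable {ε : ℝ} (hε0 : 0 < ε) (hε : ∀ (ψ : ℝ) (X : T), σ.P ψ X → ¬ IsZero X → ε ≤ ‖W X‖)

include hε0 hε

/-- Existence of simple subobjects. -/
theorem exists_simp {ψ : ℝ} (n : ℕ) : ∀ E : T, σ.P ψ E → ¬ IsZero E → ‖W E‖ < n * ε →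
    ∃ C B : T, IsTri C E B ∧ σ.Simp ψ C ∧ σ.P ψ B := by
  induction n with
  | zero =>
    intro E _ _ h
    simp only [Nat.cast_zero, zero_mul] at h
    exact absurd h (not_lt.2 (norm_nonneg _))
  | succ n ih =>
    intro E hE hz hn
    by_cases hS : σ.Simp ψ E
    · exact ⟨E, 0, ⟨_, _, _, tri_of_iso (Iso.refl E)⟩, hS, σ.zero _ _ (isZero_zero T)⟩
    · have : ∃ X Y : T, IsTri X E Y ∧ σ.P ψ X ∧ σ.P ψ Y ∧ ¬ IsZero X ∧ ¬ IsZero Y := by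
        by_contra hc
        push Not at hc
        apply hS
        refine ⟨hE, hz, fun X Y ht hX hY => ?_⟩
        by_cases h1 : IsZero X
        · exact Or.inl h1
        · exact Or.inr (hc X Y ht hX hY h1)
      obtain ⟨X, Y, ⟨x, y, z, ht⟩, hX, hY, hXz, hYz⟩ := this
      have h1 : ‖W E‖ = ‖W X‖ + ‖W Y‖ := hW.norm_add ht hX hY
      have h2 := hε ψ Y hY hYz
      obtain ⟨C, B', ⟨c₁, c₂, c₃, ht'⟩, hC, hB'⟩ := ih X hX hXz (by push_cast at hn; linarith)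
      obtain ⟨B, p, q, r, s, w, k1, k2, k3, k4⟩ := octa ht' ht
      exact ⟨C, B, ⟨_, _, _, k1⟩, hC, P_ext k2 hB' hY⟩

/-- The maximal subobject filtered by a simple subobject. -/
theorem exists_filt {τ : Slicing T} {V : T → ℂ} (hV : IsCharge τ V) {ψ : ℝ} {C E B₀ : T}
    (hC : σ.Simp ψ C) (ht₀ : IsTri C E B₀) (hB₀ : σ.P ψ B₀) :
    ∃ (n : ℕ) (A B : T) (a : A ⟶ E) (b : E ⟶ B) (c : B ⟶ A⟦(1 : ℤ)⟧),
      Triangle.mk a b c ∈ distTriang T ∧ σ.P ψ A ∧ σ.P ψ B ∧ ¬ IsZero A ∧ V A = n * V C ∧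
      1 ≤ n ∧ (∀ Y : T, (∀ f : C ⟶ Y, f = 0) → ∀ f : A ⟶ Y, f = 0) ∧ ∀ f : C ⟶ B, f = 0 := by
  by_contra hcon
  push Not at hcon
  have key : ∀ m : ℕ, ∃ (A B : T) (a : A ⟶ E) (b : E ⟶ B) (c : B ⟶ A⟦(1 : ℤ)⟧),
      Triangle.mk a b c ∈ distTriang T ∧ σ.P ψ A ∧ σ.P ψ B ∧ ¬ IsZero A ∧
      V A = ((m + 1 : ℕ) : ℂ) * V C ∧ W A = ((m + 1 : ℕ) : ℂ) * W C ∧
      (∀ Y : T, (∀ f : C ⟶ Y, f = 0) → ∀ f : A ⟶ Y, f = 0) := by
    intro m
    induction m with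
    | zero =>
      obtain ⟨a, b, c, ht⟩ := ht₀
      exact ⟨C, B₀, a, b, c, ht, hC.1, hB₀, hC.2.1, by simp, by simp, fun Y h => h⟩
    | succ m ih =>
      obtain ⟨A, B, a, b, c, ht, hA, hB, hAz, hVA, hWA, hfil⟩ := ih
      obtain ⟨g, hg⟩ := hcon (m + 1) A B a b c ht hA hB hAz hVA (by omega) hfil
      obtain ⟨X, p, q, htX, hX⟩ := cone_simp hW hC hB g hg
      obtain ⟨Q, p', q', r, s, w, k1, k2, k3, k4⟩ :=
        octa (rot_of_distTriang _ ht) (rot_of_distTriang _ htX)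
      have hA1 : σ.P (ψ + 1) (A⟦(1 : ℤ)⟧) := (σ.shift _ _).2 hA
      have hC1 : σ.P (ψ + 1) (C⟦(1 : ℤ)⟧) := (σ.shift _ _).2 hC.1
      have hQ : σ.P (ψ + 1) Q := P_ext k2 hA1 hC1
      have hVQ : V Q = V (A⟦(1 : ℤ)⟧) + V (C⟦(1 : ℤ)⟧) := hV.add _ k2
      have hWQ : W Q = W (A⟦(1 : ℤ)⟧) + W (C⟦(1 : ℤ)⟧) := hW.add _ k2
      have hA' : σ.P ψ (Q⟦(-1 : ℤ)⟧) := by
        have := P_shift_neg hQ 1
        simpa using this
      have hVA' : V (Q⟦(-1 : ℤ)⟧) = ((m + 1 + 1 : ℕ) : ℂ) * V C := by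
        rw [hV.shift_neg, hVQ, hV.shift, hV.shift, hVA]; push_cast; ring
      have hWA' : W (Q⟦(-1 : ℤ)⟧) = ((m + 1 + 1 : ℕ) : ℂ) * W C := by
        rw [hW.shift_neg, hWQ, hW.shift, hW.shift, hWA]; push_cast; ring
      have hWC : W C ≠ 0 := hW.ne_zero hC.1 hC.2.1
      have hA'z : ¬ IsZero (Q⟦(-1 : ℤ)⟧) := by
        intro h0
        rw [hW.zero h0] at hWA'
        have h1 : ((m + 1 + 1 : ℕ) : ℂ) ≠ 0 := by
          rw [Nat.cast_ne_zero]; omega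
        exact mul_ne_zero h1 hWC hWA'.symm
      refine ⟨Q⟦(-1 : ℤ)⟧, X, _, _, _, inv_rot_of_distTriang _ k1, hA', hX, hA'z, hVA', hWA', ?_⟩
      intro Y hY f
      refine shift_hom_zero (-1) (fun f => ?_) f
      have hCf : ∀ g : C⟦(1 : ℤ)⟧ ⟶ Y⟦-(-1 : ℤ)⟧, g = 0 := by
        intro g
        refine shift_hom_zero 1 (fun g => ?_) g
        have e : (Y⟦-(-1 : ℤ)⟧)⟦(-1 : ℤ)⟧ ≅ Y :=
          (shiftFunctorCompIsoId T (-(-1)) (-1) (by ring)).app Y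
        have h1 := hY (g ≫ e.hom)
        rw [← cancel_mono e.hom, h1, zero_comp]
      have hAf : ∀ g : A⟦(1 : ℤ)⟧ ⟶ Y⟦-(-1 : ℤ)⟧, g = 0 := by
        intro g
        refine shift_hom_zero 1 (fun g => ?_) g
        have e : (Y⟦-(-1 : ℤ)⟧)⟦(-1 : ℤ)⟧ ≅ Y :=
          (shiftFunctorCompIsoId T (-(-1)) (-1) (by ring)).app Y
        have h1 := hfil Y hY (g ≫ e.hom)
        rw [← cancel_mono e.hom, h1, zero_comp]
      obtain ⟨g, hg'⟩ := Triangle.yoneda_exact₂ _ k2 f (hAf _)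
      have hg0 : g = 0 := hCf g
      rw [hg', hg0, comp_zero]
      rfl
  -- contradiction with boundedness
  have hEP : σ.P ψ E := by
    obtain ⟨a, b, c, ht⟩ := ht₀
    exact P_ext ht hC.1 hB₀
  obtain ⟨m, hm⟩ := exists_nat_gt (‖W E‖ / ε)
  obtain ⟨A, B, a, b, c, ht, hA, hB, hAz, hVA, hWA, hfil⟩ := key m
  have h1 : ‖W E‖ = ‖W A‖ + ‖W B‖ := hW.norm_add ht hA hB
  have h2 : ‖W A‖ = ((m + 1 : ℕ) : ℝ) * ‖W C‖ := by
    rw [hWA, norm_mul, Complex.norm_natCast]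
  have h3 := hε ψ C hC.1 hC.2.1
  have h4 : ‖W E‖ < m * ε := by
    rwa [div_lt_iff₀ hε0] at hm
  have h5 : (m : ℝ) * ε ≤ ((m + 1 : ℕ) : ℝ) * ‖W C‖ := by
    push_cast
    nlinarith [norm_nonneg (W C)]
  have h6 := norm_nonneg (W B)
  linarith

end IsCharge

end Pool.Agent.H934
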