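import Mathlib
import Pool.Agent.H934.UnitObj

set_option autoImplicit false
set_option linter.unusedSectionVars false
set_option linter.unusedVariables false

open CategoryTheory CategoryTheory.Limits CategoryTheory.Pretriangulated ZeroObject

namespace Pool.Agent.H934

universe v u

variable {T : Type u} [Category.{v} T] [Preadditive T] [HasZeroObject T] [HasShift T ℤ]
  [∀ n : ℤ, (shiftFunctor T n).Additive] [Pretriangulated T] [IsTriangulated T] [Linear ℂ T]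
  [∀ n : ℤ, (shiftFunctor T n).Linear ℂ]

open Slicing

/-- The degree one endomorphisms of a triangle. -/
def endTri {A E B : T} (a : A ⟶ E) (b : E ⟶ B) :
    Submodule ℂ ((A ⟶ A⟦(1 : ℤ)⟧) × (B ⟶ B⟦(1 : ℤ)⟧) × (E ⟶ E⟦(1 : ℤ)⟧)) where
  carrier := {p | a ≫ p.2.2 = p.1 ≫ a⟦(1 : ℤ)⟧' ∧ b ≫ p.2.1 = p.2.2 ≫ b⟦(1 : ℤ)⟧'}
  add_mem' := by
    rintro ⟨x, y, z⟩ ⟨x', y', z'⟩ ⟨h1, h2⟩ ⟨h1', h2'⟩
    change a ≫ (z + z') = (x + x') ≫ a⟦(1 : ℤ)⟧' ∧ b ≫ (y + y') = (z + z') ≫ b⟦(1 : ℤ)⟧'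
    change a ≫ z = x ≫ a⟦(1 : ℤ)⟧' at h1
    change a ≫ z' = x' ≫ a⟦(1 : ℤ)⟧' at h1'
    change b ≫ y = z ≫ b⟦(1 : ℤ)⟧' at h2
    change b ≫ y' = z' ≫ b⟦(1 : ℤ)⟧' at h2'
    simp only [Preadditive.add_comp, Preadditive.comp_add, h1, h1', h2, h2', and_self]
  zero_mem' := by
    change a ≫ (0 : E ⟶ E⟦(1 : ℤ)⟧) = (0 : A ⟶ A⟦(1 : ℤ)⟧) ≫ a⟦(1 : ℤ)⟧' ∧
      b ≫ (0 : B ⟶ B⟦(1 : ℤ)⟧) = (0 : E ⟶ E⟦(1 : ℤ)⟧) ≫ b⟦(1 : ℤ)⟧'
    simp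
  smul_mem' := by
    rintro r ⟨x, y, z⟩ ⟨h1, h2⟩
    change a ≫ z = x ≫ a⟦(1 : ℤ)⟧' at h1
    change b ≫ y = z ≫ b⟦(1 : ℤ)⟧' at h2
    change a ≫ (r • z) = (r • x) ≫ a⟦(1 : ℤ)⟧' ∧ b ≫ (r • y) = (r • z) ≫ b⟦(1 : ℤ)⟧'
    simp only [Linear.smul_comp, Linear.comp_smul, h1, h2, and_self]

/-- **The weak Mukai lemma.** -/
theorem weak_mukai (hT : ExtFinite T) {A E B : T} {a : A ⟶ E} {b : E ⟶ B} {c : B ⟶ A⟦(1 : ℤ)⟧}
    (ht : Triangle.mk a b c ∈ distTriang T) (h0 : ∀ f : A ⟶ B, f = 0)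
    (h2 : ∀ f : B ⟶ (A⟦(1 : ℤ)⟧)⟦(1 : ℤ)⟧, f = 0) :
    Module.finrank ℂ (A ⟶ A⟦(1 : ℤ)⟧) + Module.finrank ℂ (B ⟶ B⟦(1 : ℤ)⟧) ≤
      Module.finrank ℂ (E ⟶ E⟦(1 : ℤ)⟧) := by
  have fA := hT.fin A A 1
  have fB := hT.fin B B 1
  have fE := hT.fin E E 1
  let R := endTri a b
  let p₁ : R →ₗ[ℂ] (A ⟶ A⟦(1 : ℤ)⟧) × (B ⟶ B⟦(1 : ℤ)⟧) :=
    { toFun := fun p => (p.1.1, p.1.2.1)
      map_add' := fun p q => rfl
      map_smul' := fun r p => rfl }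
  let p₂ : R →ₗ[ℂ] (E ⟶ E⟦(1 : ℤ)⟧) :=
    { toFun := fun p => p.1.2.2
      map_add' := fun p q => rfl
      map_smul' := fun r p => rfl }
  have hr1 := rot_of_distTriang _ ht
  have hr2 := rot_of_distTriang _ hr1
  have hr3 := rot_of_distTriang _ hr2
  have hp₁ : Function.Surjective p₁ := by
    rintro ⟨α, β⟩
    obtain ⟨f, hf1, hf2⟩ := complete_distinguished_triangle_morphism₂ _ _ ht hr3 α β
      ((h2 _).trans (h2 _).symm)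
    obtain ⟨f', hf1', hf2'⟩ : ∃ f' : E ⟶ E⟦(1 : ℤ)⟧, a ≫ f' = α ≫ (-a⟦(1 : ℤ)⟧') ∧
      b ≫ β = f' ≫ (-b⟦(1 : ℤ)⟧') := ⟨f, hf1, hf2⟩
    refine ⟨⟨(α, β, -f'), ?_, ?_⟩, rfl⟩
    · change a ≫ (-f') = α ≫ a⟦(1 : ℤ)⟧'
      rw [Preadditive.comp_neg, hf1', Preadditive.comp_neg, neg_neg]
    · change b ≫ β = (-f') ≫ b⟦(1 : ℤ)⟧'
      rw [hf2', Preadditive.comp_neg, Preadditive.neg_comp]
  have hp₂ : Function.Injective p₂ := by
    rw [injective_iff_map_eq_zero]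
    rintro ⟨⟨α, β, f⟩, h3, h4⟩ hf
    change f = 0 at hf
    change a ≫ f = α ≫ a⟦(1 : ℤ)⟧' at h3
    change b ≫ β = f ≫ b⟦(1 : ℤ)⟧' at h4
    subst hf
    rw [comp_zero] at h3
    rw [zero_comp] at h4
    have hα : α = 0 := by
      obtain ⟨g, hg⟩ := Triangle.coyoneda_exact₂ _ hr2 α (by
        change α ≫ (-a⟦(1 : ℤ)⟧') = 0
        rw [Preadditive.comp_neg, ← h3, neg_zero])
      have hg0 : g = 0 := h0 g
      rw [hg, hg0, zero_comp]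
      rfl
    have hβ : β = 0 := by
      obtain ⟨g, hg⟩ := Triangle.yoneda_exact₂ _ hr1 β h4
      have hz : ∀ g : A⟦(1 : ℤ)⟧ ⟶ B⟦(1 : ℤ)⟧, g = 0 := by
        intro g
        obtain ⟨g', hg'⟩ := (shiftFunctor T (1 : ℤ)).map_surjective g
        rw [← hg', h0 g', Functor.map_zero]
      have hg0 : g = 0 := hz g
      rw [hg, hg0, comp_zero]
      rfl
    apply Subtype.ext
    change (α, β, (0 : E ⟶ E⟦(1 : ℤ)⟧)) = (0, 0, 0)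
    rw [hα, hβ]
  have hfR : Module.Finite ℂ R := Module.Finite.of_injective p₂ hp₂
  have e1 := LinearMap.finrank_le_finrank_of_surjective hp₁
  have e2 := LinearMap.finrank_le_finrank_of_injective hp₂
  rw [Module.finrank_prod] at e1
  exact e1.trans e2

variable {𝒮 : SerreFunctor T}

/-- Nonzero semistable objects have at least two independent self-extensions. -/
lemma two_le_of_semistable (hT : ExtFinite T) (D : NumData 𝒮 (5 / 3)) {σ : Slicing T}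
    (N : IsNorm D σ) {φ : ℝ} {E : T} (hE : σ.P φ E) (hz : ¬ IsZero E) :
    2 ≤ Module.finrank ℂ (E ⟶ E⟦(1 : ℤ)⟧) := by
  have f0 := hT.fin E E 0
  have hv : ∀ i : ℤ, i < -1 ∨ 1 < i → ∀ g : E ⟶ E⟦i⟧, g = 0 := by
    intro i hi g
    have hEi := P_shift hE i
    rcases hi with h | h
    · have h' : (i : ℝ) < -1 := by exact_mod_cast h
      exact σ.hom _ _ _ _ (by linarith) hE hEi g
    · have h' : 2 ≤ i := by omega
      have h'' : (2 : ℝ) ≤ i := by exact_mod_cast h'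
      exact serre_zero 𝒮 (fun g => σ.hom (φ + i) (φ + 5 / 3) _ _ (by linarith) hEi
        ((N.ser φ E).1 hE) g) g
  have h1 : eul E E = _ := Pool.Agent.H969R2.chi_eq_sum (E := E) (F := E) 1 hv
  have hIcc : Finset.Icc (-1 : ℤ) 1 = {-1, 0, 1} := by decide
  rw [hIcc, Finset.sum_insert (by decide), Finset.sum_insert (by decide),
    Finset.sum_singleton] at h1
  have hm1 : ∀ g : E ⟶ E⟦(-1 : ℤ)⟧, g = 0 := by
    intro g
    have hEi := P_shift hE (-1)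
    exact σ.hom _ _ _ _ (by push_cast; linarith) hE hEi g
  have hs : Subsingleton (E ⟶ E⟦(-1 : ℤ)⟧) := ⟨fun x y => by rw [hm1 x, hm1 y]⟩
  rw [Module.finrank_zero_of_subsingleton] at h1
  have n0 : ((0 : ℤ).negOnePow : ℤ) = 1 := rfl
  have n1 : ((1 : ℤ).negOnePow : ℤ) = -1 := by simp
  rw [n0, n1] at h1
  -- identity
  have h2 : 1 ≤ Module.finrank ℂ (E ⟶ E⟦(0 : ℤ)⟧) := by
    by_contra hc
    have h3 : Module.finrank ℂ (E ⟶ E⟦(0 : ℤ)⟧) = 0 := by omega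
    have h4 := Module.finrank_zero_iff.1 h3
    have h5 : ∀ g : E ⟶ E⟦(0 : ℤ)⟧, g = 0 := fun g => Subsingleton.elim _ _
    apply hz
    rw [IsZero.iff_id_eq_zero]
    have e : E ≅ E⟦(0 : ℤ)⟧ := ((shiftFunctorZero T ℤ).app E).symm
    rw [← e.hom_inv_id, h5 e.hom, zero_comp]
  -- the norm is positive
  have h3 := D.chi E E
  have hZ : D.Z E ≠ 0 := N.charge.ne_zero hE hz
  rw [← Complex.normSq_eq_conj_mul_self] at h3
  simp only [Complex.ofReal_re, Complex.ofReal_im, mul_zero, add_zero] at h3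
  have h4 : 0 < Complex.normSq (D.Z E) := Complex.normSq_pos.2 hZ
  have h5 : (eul E E : ℝ) < 0 := by
    rw [h3]
    have := mul_pos D.hq h4
    linarith
  have h6 : eul E E < 0 := by exact_mod_cast h5
  push_cast at h1
  omega

/-- Nonzero objects have at least two independent self-extensions. -/
lemma two_le (hT : ExtFinite T) (D : NumData 𝒮 (5 / 3)) {σ : Slicing T}
    (N : IsNorm D σ) {E : T} (hz : ¬ IsZero E) : 2 ≤ Module.finrank ℂ (E ⟶ E⟦(1 : ℤ)⟧) ∧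
      (Module.finrank ℂ (E ⟶ E⟦(1 : ℤ)⟧) ≤ 2 → ∃ φ, σ.P φ E) := by
  have main : ∀ E : T, ¬ IsZero E → ∃ (ρ : ℝ) (A B : T) (a : A ⟶ E) (b : E ⟶ B)
      (c : B ⟶ A⟦(1 : ℤ)⟧), Triangle.mk a b c ∈ distTriang T ∧ σ.P ρ A ∧
      2 ≤ Module.finrank ℂ (A ⟶ A⟦(1 : ℤ)⟧) ∧
      Module.finrank ℂ (A ⟶ A⟦(1 : ℤ)⟧) + Module.finrank ℂ (B ⟶ B⟦(1 : ℤ)⟧) ≤
        Module.finrank ℂ (E ⟶ E⟦(1 : ℤ)⟧) := by
    intro E hz
    obtain ⟨ρ, A, B, a, b, c, ht, hA, hAz, hB⟩ := σ.exists_max hz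
    refine ⟨ρ, A, B, a, b, c, ht, hA, two_le_of_semistable hT D N hA hAz,
      weak_mukai hT ht (hB ρ le_rfl A hA) (fun f => serre_zero 𝒮 (fun g => ?_) f)⟩
    have hA2 : σ.P (ρ + 1 + 1) ((A⟦(1 : ℤ)⟧)⟦(1 : ℤ)⟧) :=
      (σ.shift _ _).2 ((σ.shift _ _).2 hA)
    exact Lt.map N.ser hB _ (by linarith) _ hA2 g
  obtain ⟨ρ, A, B, a, b, c, ht, hA, hA2, hle⟩ := main E hz
  refine ⟨by omega, fun h => ?_⟩
  have hBz : IsZero B := by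
    by_contra hBz
    obtain ⟨ρ', A', B', a', b', c', ht', hA', hA2', hle'⟩ := main B hBz
    omega
  have : IsIso a := (Triangle.isZero₃_iff_isIso₁ _ ht).1 hBz
  exact ⟨ρ, σ.iso _ _ _ ⟨asIso a⟩ hA⟩

end Pool.Agent.H934
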