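import Mathlib
import Pool.Agent.H934.CoreB

set_option autoImplicit false
set_option linter.unusedSectionVars false
set_option linter.unusedVariables false

open CategoryTheory CategoryTheory.Limits CategoryTheory.Pretriangulated ZeroObject

namespace Pool.Agent.H934

universe v u

variable {T : Type u} [Category.{v} T] [Preadditive T] [HasZeroObject T] [HasShift T ℤ]
  [∀ n : ℤ, (shiftFunctor T n).Additive] [Pretriangulated T] [IsTriangulated T] [Linear ℂ T]
  [∀ n : ℤ, (shiftFunctor T n).Linear ℂ]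

variable {𝒮 : SerreFunctor T}

open Slicing

/-- The functionals given by the reference object and its image detect classes. -/
lemma detect (D : NumData 𝒮 (5 / 3)) {I X : T} (hI : D.Z I = 1) (h1 : eul I X = 0)
    (h2 : eul (𝒮.o I) X = 0) : D.Z X = 0 := by
  have e1 := D.chi I X
  have e2 := D.chi (𝒮.o I) X
  rw [h1, hI, map_one, one_mul] at e1
  rw [h2, D.serre, hI, mul_one] at e2
  have hre : (uv (5 / 3)).re = 1 / 2 := by rw [uv_re, cos_5]
  have hκ := D.hκ
  set w := (uv (5 / 3)).im with hw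
  simp only [Complex.mul_re, Complex.mul_im, Complex.conj_re, Complex.conj_im, hre,
    Int.cast_zero] at e1 e2
  rw [← hw] at e2
  have hq := D.hq
  have f1 : (D.Z X).re + D.κ * (D.Z X).im = 0 := by
    rcases mul_eq_zero.1 e1.symm with h | h
    · linarith
    · exact h
  have f2 : 1 / 2 * (D.Z X).re - -w * (D.Z X).im +
      D.κ * (1 / 2 * (D.Z X).im + -w * (D.Z X).re) = 0 := by
    rcases mul_eq_zero.1 e2.symm with h | h
    · exfalso; linarith
    · exact h
  have hκ0 : D.κ ≠ 0 := by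
    intro h0; rw [h0, zero_mul] at hκ; norm_num at hκ
  -- eliminate
  have f3 : (D.Z X).im * (w + D.κ / 2) = 0 := by
    linear_combination f2 + (D.Z X).re * hκ
  have f4 : w + D.κ / 2 ≠ 0 := by
    intro h0
    have : D.κ * (w + D.κ / 2) = 1 / 2 + D.κ * D.κ / 2 := by
      linear_combination hκ
    rw [h0, mul_zero] at this
    nlinarith [mul_self_nonneg D.κ]
  have him : (D.Z X).im = 0 := by
    rcases mul_eq_zero.1 f3 with h | h
    · exact h
    · exact absurd h f4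
  have hre0 : (D.Z X).re = 0 := by rw [him] at f1; linarith
  exact Complex.ext hre0 him

/-- **All stability conditions lie in one orbit.** -/
theorem all_sameOrbit (hT : FracCY T 𝒮 5) {I : T} (hI1 : eul I I = -1)
    (hI2 : Module.finrank ℂ (I ⟶ I⟦(1 : ℤ)⟧) = 2) (σ₀ : StabCond T)
    (hσ₀ : SerreInvariant 𝒮 σ₀) (σ : StabCond T) : SameOrbit σ₀ σ := by
  have hncl : ncl I ≠ 0 := by
    intro h0
    have := (ncl_eq_zero_iff I).1 h0 I
    omega
  have h35 : (3 : ℝ) * (5 / 3) = ((5 : ℤ) : ℝ) := by norm_num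
  obtain ⟨D, hDI, hDq⟩ := exists_numData hT (by decide) hncl (s := 5 / 3) (by rw [uv_re, cos_5])
      (by rw [uv_im, sin_5]; ring_nf; rw [Real.sq_sqrt (by norm_num)]; norm_num)
  have hq : D.q = 1 := by rw [hDq, hI1]; norm_num
  obtain ⟨H₀, hZ₀, N₀⟩ := normalise hT (by decide) h35 D σ₀ hσ₀
  set P₀ := σ₀.toSlicing.reparam H₀ with hP₀
  have hIz : ¬ IsZero I := by
    intro h0
    rw [D.Z_zero h0] at hDI
    exact zero_ne_one hDI
  obtain ⟨φ, hφ⟩ := (two_le hT.ext D N₀ hIz).2 hI2.le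
  have hun : IsUn D P₀ φ I := by
    refine ⟨hφ, ?_⟩
    obtain ⟨m, hm, h1⟩ := N₀.ph _ _ hφ hIz
    rw [hDI] at h1
    have h2 := congrArg norm h1
    rw [norm_one, norm_mul, norm_uv, mul_one, Complex.norm_of_nonneg hm.le] at h2
    rw [← h2, Complex.ofReal_one, one_mul] at h1
    rw [hDI, h1]
  -- the second stability condition
  obtain ⟨L, hL⟩ := D.lin σ.Z
  let W : T → ℂ := fun X => σ.Z (ncl X)
  have hLW : ∀ X, W X = L (D.Z X) := hL
  have hW : IsCharge σ.toSlicing W :=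
    ⟨fun Δ hΔ => by rw [hLW, hLW, hLW, D.add Δ hΔ, map_add],
      fun E F e => by rw [hLW, hLW, D.iso E F e], σ.phase⟩
  -- lower bound for the charges
  obtain ⟨C₁, hC₁⟩ := σ.support I
  obtain ⟨C₂, hC₂⟩ := σ.support (𝒮.o I)
  set M : ℝ := |C₁| + |C₂| + 1 with hM
  have hM0 : 0 < M := by positivity
  have hε : ∀ (ψ : ℝ) (X : T), σ.P ψ X → ¬ IsZero X → M⁻¹ ≤ ‖W X‖ := by
    intro ψ X hX hXz
    have hWX : W X ≠ 0 := hW.ne_zero hX hXz
    have hDX : D.Z X ≠ 0 := fun h0 => hWX (by rw [hLW, h0, map_zero])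
    have h1 : 1 ≤ M * ‖W X‖ := by
      by_cases h0 : eul I X = 0
      · have h2 : eul (𝒮.o I) X ≠ 0 := fun h2 => hDX (detect D hDI h0 h2)
        have h3 : (1 : ℝ) ≤ |(eul (𝒮.o I) X : ℝ)| := by
          have : (1 : ℤ) ≤ |eul (𝒮.o I) X| := Int.one_le_abs h2
          exact_mod_cast this
        have h4 := hC₂ ψ X hX
        have h5 : C₂ * ‖W X‖ ≤ M * ‖W X‖ := by
          apply mul_le_mul_of_nonneg_right _ (norm_nonneg _)
          have := le_abs_self C₂
          have := abs_nonneg C₁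
          linarith
        have h6 : |(eul (𝒮.o I) X : ℝ)| ≤ C₂ * ‖W X‖ := h4
        linarith
      · have h3 : (1 : ℝ) ≤ |(eul I X : ℝ)| := by
          have : (1 : ℤ) ≤ |eul I X| := Int.one_le_abs h0
          exact_mod_cast this
        have h4 := hC₁ ψ X hX
        have h5 : C₁ * ‖W X‖ ≤ M * ‖W X‖ := by
          apply mul_le_mul_of_nonneg_right _ (norm_nonneg _)
          have := le_abs_self C₁
          have := abs_nonneg C₂
          linarith
        have h6 : |(eul I X : ℝ)| ≤ C₁ * ‖W X‖ := h4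
        linarith
    rw [inv_le_iff_one_le_mul₀ hM0, mul_comm]
    rw [mul_comm] at h1
    linarith
  obtain ⟨H, hHL, hI0, hI1', hI2'⟩ := exists_normal hT.ext D hq N₀ hW hLW (inv_pos.2 hM0) hε
    hT.cy hun
  set P := σ.toSlicing.reparam H with hP
  have hPc : IsCharge P D.Z := by
    refine ⟨D.add, D.iso, fun ψ E hE hz => ?_⟩
    obtain ⟨m, hm, hZ⟩ := hW.ph _ _ hE hz
    obtain ⟨m', hm', h2⟩ := H.compat' ψ
    refine ⟨m / m', div_pos hm hm', ?_⟩
    apply H.g.injective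
    rw [GLTilde.g_smul, h2, hHL, ← hLW, hZ]
    have : (m' : ℂ) ≠ 0 := by exact_mod_cast hm'.ne'
    push_cast
    field_simp
  have hun1 := hun.serre N₀
  have hun2 := hun1.serre N₀
  have test : ∀ j : ℤ, ∃ J : T, P₀.P (φ + (j : ℝ) / 3) J ∧ P.P (φ + (j : ℝ) / 3) J ∧
      ¬ IsZero J := by
    intro j
    obtain ⟨t, ht⟩ : ∃ t : ℤ, j = 3 * t ∨ j = 3 * t + 1 ∨ j = 3 * t + 2 := ⟨j / 3, by omega⟩
    rcases ht with ht | ht | ht
    · refine ⟨I⟦t⟧, ?_, ?_, fun h0 => hIz ((isZero_shift t).1 h0)⟩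
      · have := P_shift hun.1 t
        rwa [show φ + (t : ℝ) = φ + (j : ℝ) / 3 by rw [ht]; push_cast; ring] at this
      · have h1 : P.P φ I := hI0
        have := P_shift h1 t
        rwa [show φ + (t : ℝ) = φ + (j : ℝ) / 3 by rw [ht]; push_cast; ring] at this
    · refine ⟨(𝒮.o (𝒮.o I))⟦t - 3⟧, ?_, ?_, fun h0 => hun2.not_isZero N₀ ((isZero_shift _).1 h0)⟩
      · have := P_shift hun2.1 (t - 3)
        rwa [show φ + 5 / 3 + 5 / 3 + ((t - 3 : ℤ) : ℝ) = φ + (j : ℝ) / 3 by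
          rw [ht]; push_cast; ring] at this
      · have h1 : P.P (φ + 5 / 3 + 5 / 3) (𝒮.o (𝒮.o I)) := hI2'
        have := P_shift h1 (t - 3)
        rwa [show φ + 5 / 3 + 5 / 3 + ((t - 3 : ℤ) : ℝ) = φ + (j : ℝ) / 3 by
          rw [ht]; push_cast; ring] at this
    · refine ⟨(𝒮.o I)⟦t - 1⟧, ?_, ?_, fun h0 => hun1.not_isZero N₀ ((isZero_shift _).1 h0)⟩
      · have := P_shift hun1.1 (t - 1)
        rwa [show φ + 5 / 3 + ((t - 1 : ℤ) : ℝ) = φ + (j : ℝ) / 3 by
          rw [ht]; push_cast; ring] at this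
      · have h1 : P.P (φ + 5 / 3) (𝒮.o I) := hI1'
        have := P_shift h1 (t - 1)
        rwa [show φ + 5 / 3 + ((t - 1 : ℤ) : ℝ) = φ + (j : ℝ) / 3 by
          rw [ht]; push_cast; ring] at this
  have heq := eq_of_test hT.ext D N₀ hPc test
  refine ⟨H₀.comp H.inv, ?_, ?_⟩
  · have h1 : ∀ E : T, σ.Z (ncl E) = (H₀.comp H.inv).g.symm (σ₀.Z (ncl E)) := by
      intro E
      rw [LinearEquiv.eq_symm_apply, hZ₀, hL, ← hHL]
      change H₀.g (H.g.symm (H.g (D.Z E))) = H₀.g (D.Z E)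
      rw [LinearEquiv.symm_apply_apply]
    rintro ⟨v, hv⟩
    have key : ∀ (v : T → ℤ) (hv : v ∈ Num T), σ.Z ⟨v, hv⟩ =
        (H₀.comp H.inv).g.symm (σ₀.Z ⟨v, hv⟩) := by
      intro v hv
      refine AddSubgroup.closure_induction (p := fun v hv => σ.Z ⟨v, hv⟩ =
        (H₀.comp H.inv).g.symm (σ₀.Z ⟨v, hv⟩)) ?_ ?_ ?_ ?_ hv
      · rintro _ ⟨E, rfl⟩
        exact h1 E
      · have e0 : (⟨0, AddSubgroup.zero_mem _⟩ : Num T) = 0 := rfl
        rw [e0, map_zero, map_zero, map_zero]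
      · intro x y hx hy h2 h3
        have e0 : (⟨x + y, AddSubgroup.add_mem _ hx hy⟩ : Num T) = ⟨x, hx⟩ + ⟨y, hy⟩ := rfl
        rw [e0, map_add, map_add, map_add, h2, h3]
      · intro x hx h2
        have e0 : (⟨-x, AddSubgroup.neg_mem _ hx⟩ : Num T) = -⟨x, hx⟩ := rfl
        rw [e0, map_neg, map_neg, map_neg, h2]
    exact key v hv
  · intro ψ E
    have h1 : σ.P ψ E ↔ σ.P (H.f (H.inv.f ψ)) E := by rw [H.f_inv]
    rw [h1]
    exact heq (H.inv.f ψ) E

end Pool.Agent.H934
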