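import Pool.Graph.R_seed8.R56.Thr.Gen

/-!
# A separable family of 24 arcs on 15 points
-/

set_option autoImplicit false

open Pool.Agent.Y428.Tt (PT strandGood)

namespace Pool.Agent.H934.ThrArcs

open Pool.Agent.R56.Thr

def t0 : PT := ⟨4, ![0, 0, 1, 2, 3], ![(686774, 17565723), (574671, 7018276), (626648, 27282007), (-2339245, -3938709), (1688794, -10621865)]⟩

def t1 : PT := ⟨2, ![0, 0, 1], ![(1688794, -10621865), (-660257, 2378188), (-622984, 2201345)]⟩

def t2 : PT := ⟨3, ![0, 0, 1, 2], ![(686774, 17565723), (2826243, -10343552), (-1001665, -3804489), (-78013, -1050063)]⟩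

def t3 : PT := ⟨3, ![0, 0, 1, 2], ![(-78013, -1050063), (-2149, -1476150), (626648, 27282007), (-1345417, 28964879)]⟩

def t4 : PT := ⟨2, ![0, 0, 1], ![(-622984, 2201345), (540381, 20054152), (2349957, -7805653)]⟩

def t5 : PT := ⟨4, ![0, 0, 1, 2, 3], ![(-1345417, 28964879), (-2950979, -164728), (2358157, -7961948), (2165596, -4147387), (2349957, -7805653)]⟩

def t6 : PT := ⟨3, ![0, 0, 1, 2], ![(686774, 17565723), (1070873, 7994078), (-660257, 2378188), (-1026552, -3427249)]⟩

def t7 : PT := ⟨3, ![0, 0, 1, 2], ![(-622984, 2201345), (2358157, -7961948), (136458, -56064572), (-1026552, -3427249)]⟩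

def t8 : PT := ⟨2, ![0, 0, 1], ![(-1345417, 28964879), (-2495385, 441168), (2339643, -7644683)]⟩

def t9 : PT := ⟨3, ![0, 0, 1, 2], ![(-622984, 2201345), (550430, 28882557), (2165596, -4147387), (2339643, -7644683)]⟩

def t10 : PT := ⟨4, ![0, 0, 1, 2, 3], ![(686774, 17565723), (1587386, 2665068), (2618252, -9367802), (-2149, -1476150), (-39312, -3130659)]⟩

def t11 : PT := ⟨2, ![0, 0, 1], ![(-1345417, 28964879), (-101105, -1579743), (-39312, -3130659)]⟩

def t12 : PT := ⟨5, ![0, 0, 1, 2, 3, 4], ![(-78013, -1050063), (-522277, -3023107), (2805272, -10204181), (1587386, 2665068), (574671, 7018276), (783459, 7727336)]⟩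

def t13 : PT := ⟨3, ![0, 0, 1, 2], ![(1688794, -10621865), (-2825042, -5072592), (887857, 48621904), (783459, 7727336)]⟩

def t14 : PT := ⟨2, ![0, 0, 1], ![(1688794, -10621865), (1178247, -7528593), (-607704, 3137952)]⟩

def t15 : PT := ⟨4, ![0, 0, 1, 2, 3], ![(2339643, -7644683), (2358157, -7961948), (1172074, 66380740), (-660257, 2378188), (-607704, 3137952)]⟩

def t16 : PT := ⟨3, ![0, 0, 1, 2], ![(-39312, -3130659), (2978321, -12069996), (626648, 27282007), (289968, 4265309)]⟩

def t17 : PT := ⟨4, ![0, 0, 1, 2, 3], ![(1688794, -10621865), (-1001665, -3804489), (-1565446, 3366152), (1587386, 2665068), (289968, 4265309)]⟩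

def t18 : PT := ⟨3, ![0, 0, 1, 2], ![(2339643, -7644683), (-729900, -2289710), (-1034318, 36332409), (-2050322, 14059604)]⟩

def t19 : PT := ⟨3, ![0, 0, 1, 2], ![(-39312, -3130659), (-1144684, 46823801), (-2495385, 441168), (-2050322, 14059604)]⟩

def t20 : PT := ⟨4, ![0, 0, 1, 2, 3], ![(783459, 7727336), (677258, 31685961), (-2662968, -2919537), (1178247, -7528593), (1212052, -7912302)]⟩

def t21 : PT := ⟨2, ![0, 0, 1], ![(-607704, 3137952), (2069395, -12819698), (1212052, -7912302)]⟩

def t22 : PT := ⟨2, ![0, 0, 1], ![(-1345417, 28964879), (-35020, -3238664), (-81226, -1841838)]⟩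

def t23 : PT := ⟨5, ![0, 0, 1, 2, 3, 4], ![(289968, 4265309), (554737, 20578206), (2899253, -11326348), (-2149, -1476150), (-101105, -1579743), (-81226, -1841838)]⟩

/-- the points -/
def pnts : Finset (ℤ × ℤ) := {(686774, 17565723), (1688794, -10621865), (-622984, 2201345), (-78013, -1050063), (-1345417, 28964879), (2349957, -7805653), (-1026552, -3427249), (2339643, -7644683), (-39312, -3130659), (783459, 7727336), (-607704, 3137952), (289968, 4265309), (-2050322, 14059604), (1212052, -7912302), (-81226, -1841838)}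

/-- the arcs -/
def tr : Fin 24 → PT := ![t0, t1, t2, t3, t4, t5, t6, t7, t8, t9, t10, t11, t12, t13, t14, t15, t16, t17, t18, t19, t20, t21, t22, t23]

theorem tree_ok : ∀ i, treeGood pnts (tr i) := by
  decide +kernel

theorem strand_ok : ∀ i, strandGood 2978321 164727 (tr i) := by
  decide +kernel

theorem pair_ok : ∀ i j, i < j → pairGood false pnts (tr i) (tr j) := by
  decide +kernel

theorem pnts_ok : ∀ z ∈ pnts, |z.1| ≤ (2978321 : ℤ) ∧ (164727 : ℤ) ≤ |z.2| := by
  decide +kernel

theorem pnts_card : pnts.card = 15 := by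
  decide +kernel

theorem arc_ok : ∀ i, arcGood pnts (tr i) := by
  decide +kernel

end Pool.Agent.H934.ThrArcs
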